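import Pool.Agent.V1194.TTOParam

/-!
# Having no two orthogonal eigenvectors is an open condition
-/

set_option autoImplicit false

namespace Pool.Agent.V1194.TTOParam

open Matrix Finset Pool.Agent.V1194.TTOAlg

variable {n : ℕ}

theorem noOrth_one (a : Fin n → ℝ) (ha : Function.Injective a) :
    NoOrth (Mm a (fun _ => 1)) := by
  rintro ⟨x, y, α, β, hx, hy, hMx, hMy, hxy⟩
  have hsum : ∀ (w : Fin n → ℂ) (γ : ℂ), w ≠ 0 → Mm a (fun _ => 1) *ᵥ w = γ • w → ∑ i, w i ≠ 0 := by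
    intro w γ hw hMw h0
    have h1 : ∀ i, ((a i : ℂ) - γ) * w i = 0 := by
      intro i
      have := congrFun hMw i
      simp only [Mm, add_mulVec, Pi.add_apply, mulVec_diagonal, smul_mulVec, Pi.smul_apply,
        smul_eq_mul] at this
      have h2 : (Bm (fun _ => 1 : Sym2 (Fin n) → ℝ) *ᵥ w) i = ∑ l, w l := by
        simp [Bm, mulVec, dotProduct]
      rw [h2, h0, mul_zero, add_zero] at this
      rw [sub_mul, this, sub_self]
    obtain ⟨i0, hi0⟩ := Function.ne_iff.1 hw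
    have h3 : (a i0 : ℂ) = γ := by
      rcases mul_eq_zero.1 (h1 i0) with h | h
      · exact sub_eq_zero.1 h
      · exact absurd h hi0
    have h4 : ∀ i, i ≠ i0 → w i = 0 := by
      intro i hi
      rcases mul_eq_zero.1 (h1 i) with h | h
      · exfalso
        apply hi
        apply ha
        have : (a i : ℂ) = a i0 := by rw [h3]; exact sub_eq_zero.1 h
        exact_mod_cast this
      · exact h
    rw [Finset.sum_eq_single i0 (fun i _ hi => h4 i hi) (by simp)] at h0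
    exact hi0 h0
  have h1 : star x ⬝ᵥ (Mm a (fun _ => 1) *ᵥ y) = 0 := by
    rw [hMy, dotProduct_smul, hxy, smul_zero]
  have h2 : star ((Mm a (fun _ => 1))ᴴ *ᵥ x) ⬝ᵥ y = 0 := by
    rw [dot_mulVec, conjTranspose_conjTranspose, h1]
  have h3 : (Mm a (fun _ => 1))ᴴ *ᵥ x = α • x - (2 * Complex.I) • (Bm (fun _ => 1) *ᵥ x) := by
    rw [Mm_conjTranspose, ← hMx, Mm, sub_mulVec, add_mulVec, smul_mulVec]
    module
  rw [h3, star_sub, sub_dotProduct, star_smul, smul_dotProduct, hxy, smul_zero, zero_sub, star_smul,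
    smul_dotProduct] at h2
  have h4 : star (Bm (fun _ => 1 : Sym2 (Fin n) → ℝ) *ᵥ x) ⬝ᵥ y = star (∑ i, x i) * ∑ i, y i := by
    simp [Bm, mulVec, dotProduct, Finset.mul_sum]
  rw [h4] at h2
  have h5 := hsum x α hx hMx
  have h6 := hsum y β hy hMy
  have h7 : star (∑ i, x i) ≠ 0 := star_ne_zero.2 h5
  have h8 : star (2 * Complex.I) ≠ 0 := star_ne_zero.2 (by simp)
  simp only [smul_eq_mul, neg_eq_zero, mul_eq_zero] at h2
  rcases h2 with h | h | h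
  · exact h8 h
  · exact h7 h
  · exact h6 h

/-- The set of pairs with orthogonal eigenvectors. -/
def bad (a : Fin n → ℝ) : Set ((Sym2 (Fin n) → ℝ) ×
    (Metric.sphere (0 : Fin n → ℂ) 1 × Metric.sphere (0 : Fin n → ℂ) 1)) :=
  {p | (∀ i j, (Mm a p.1 *ᵥ (p.2.1 : Fin n → ℂ)) i * (p.2.1 : Fin n → ℂ) j =
        (Mm a p.1 *ᵥ (p.2.1 : Fin n → ℂ)) j * (p.2.1 : Fin n → ℂ) i) ∧
      (∀ i j, (Mm a p.1 *ᵥ (p.2.2 : Fin n → ℂ)) i * (p.2.2 : Fin n → ℂ) j =
        (Mm a p.1 *ᵥ (p.2.2 : Fin n → ℂ)) j * (p.2.2 : Fin n → ℂ) i) ∧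
      star (p.2.1 : Fin n → ℂ) ⬝ᵥ (p.2.2 : Fin n → ℂ) = 0}

theorem continuous_Mm (a : Fin n → ℝ) : Continuous fun f : Sym2 (Fin n) → ℝ => Mm a f := by
  unfold Mm
  refine continuous_const.add (Continuous.const_smul ?_ Complex.I)
  refine continuous_matrix fun i j => ?_
  simp only [Bm, Matrix.of_apply]
  exact Complex.continuous_ofReal.comp (continuous_apply _)

theorem isClosed_bad (a : Fin n → ℝ) : IsClosed (bad a) := by
  have c1 : Continuous fun p : (Sym2 (Fin n) → ℝ) ×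
    (Metric.sphere (0 : Fin n → ℂ) 1 × Metric.sphere (0 : Fin n → ℂ) 1) => (p.2.1 : Fin n → ℂ) :=
    continuous_subtype_val.comp (continuous_fst.comp continuous_snd)
  have c2 : Continuous fun p : (Sym2 (Fin n) → ℝ) ×
    (Metric.sphere (0 : Fin n → ℂ) 1 × Metric.sphere (0 : Fin n → ℂ) 1) => (p.2.2 : Fin n → ℂ) :=
    continuous_subtype_val.comp (continuous_snd.comp continuous_snd)
  have cM : Continuous fun p : (Sym2 (Fin n) → ℝ) ×
    (Metric.sphere (0 : Fin n → ℂ) 1 × Metric.sphere (0 : Fin n → ℂ) 1) => Mm a p.1 :=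
    (continuous_Mm a).comp continuous_fst
  have d1 := cM.matrix_mulVec c1
  have d2 := cM.matrix_mulVec c2
  have e : bad a = (⋂ i, ⋂ j, {p | (Mm a p.1 *ᵥ (p.2.1 : Fin n → ℂ)) i * (p.2.1 : Fin n → ℂ) j =
        (Mm a p.1 *ᵥ (p.2.1 : Fin n → ℂ)) j * (p.2.1 : Fin n → ℂ) i}) ∩
      ((⋂ i, ⋂ j, {p | (Mm a p.1 *ᵥ (p.2.2 : Fin n → ℂ)) i * (p.2.2 : Fin n → ℂ) j =
        (Mm a p.1 *ᵥ (p.2.2 : Fin n → ℂ)) j * (p.2.2 : Fin n → ℂ) i}) ∩
      {p | star (p.2.1 : Fin n → ℂ) ⬝ᵥ (p.2.2 : Fin n → ℂ) = 0}) := by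
    ext p
    simp [bad]
  rw [e]
  refine IsClosed.inter ?_ (IsClosed.inter ?_ ?_)
  · refine isClosed_iInter fun i => isClosed_iInter fun j => isClosed_eq ?_ ?_
    · exact ((continuous_apply i).comp d1).mul ((continuous_apply j).comp c1)
    · exact ((continuous_apply j).comp d1).mul ((continuous_apply i).comp c1)
  · refine isClosed_iInter fun i => isClosed_iInter fun j => isClosed_eq ?_ ?_
    · exact ((continuous_apply i).comp d2).mul ((continuous_apply j).comp c2)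
    · exact ((continuous_apply j).comp d2).mul ((continuous_apply i).comp c2)
  · refine isClosed_eq ?_ continuous_const
    exact Continuous.dotProduct (continuous_star.comp c1) c2

theorem noOrth_of_notMem (a : Fin n → ℝ) {f : Sym2 (Fin n) → ℝ}
    (hf : f ∉ Prod.fst '' (bad a)) : NoOrth (Mm a f) := by
  rintro ⟨x, y, α, β, hx, hy, hMx, hMy, hxy⟩
  apply hf
  have hx' : ‖((‖x‖⁻¹ : ℝ) : ℂ) • x‖ = 1 := by
    rw [norm_smul]
    simp [norm_ne_zero_iff.2 hx]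
  have hy' : ‖((‖y‖⁻¹ : ℝ) : ℂ) • y‖ = 1 := by
    rw [norm_smul]
    simp [norm_ne_zero_iff.2 hy]
  refine ⟨(f, (⟨((‖x‖⁻¹ : ℝ) : ℂ) • x, by simpa using hx'⟩, ⟨((‖y‖⁻¹ : ℝ) : ℂ) • y, by simpa using hy'⟩)),
    ⟨?_, ?_, ?_⟩, rfl⟩
  · intro i j
    simp only [mulVec_smul, hMx, Pi.smul_apply, smul_eq_mul]
    ring
  · intro i j
    simp only [mulVec_smul, hMy, Pi.smul_apply, smul_eq_mul]
    ring
  · show star (((‖x‖⁻¹ : ℝ) : ℂ) • x) ⬝ᵥ (((‖y‖⁻¹ : ℝ) : ℂ) • y) = 0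
    rw [star_smul, smul_dotProduct, dotProduct_smul, hxy, smul_zero, smul_zero]

theorem one_notMem (a : Fin n → ℝ) (ha : Function.Injective a) :
    (fun _ => 1 : Sym2 (Fin n) → ℝ) ∉ Prod.fst '' (bad a) := by
  rintro ⟨⟨f, ⟨x, hx⟩, ⟨y, hy⟩⟩, ⟨h1, h2, h3⟩, rfl⟩
  have hx0 : x ≠ 0 := by rintro rfl; simp at hx
  have hy0 : y ≠ 0 := by rintro rfl; simp at hy
  have key : ∀ w : Fin n → ℂ, w ≠ 0 → (∀ i j, (Mm a (fun _ => 1) *ᵥ w) i * w j =
      (Mm a (fun _ => 1) *ᵥ w) j * w i) → ∃ c : ℂ, Mm a (fun _ => 1) *ᵥ w = c • w := by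
    intro w hw h
    obtain ⟨i0, hi0⟩ := Function.ne_iff.1 hw
    refine ⟨(Mm a (fun _ => 1) *ᵥ w) i0 / w i0, ?_⟩
    ext i
    have hi0' : w i0 ≠ 0 := hi0
    have := h i i0
    simp only [Pi.smul_apply, smul_eq_mul]
    field_simp
    exact this
  obtain ⟨c, hc⟩ := key x hx0 h1
  obtain ⟨d, hd⟩ := key y hy0 h2
  exact noOrth_one a ha ⟨x, y, c, d, hx0, hy0, hc, hd, h3⟩

theorem exists_good (a : Fin 20 → ℝ) (ha : Function.Injective a) :
    ∃ f : Sym2 (Fin 20) → ℝ, NoOrth (Mm a f) ∧ f ∉ Set.range (out a) := by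
  have hcl : IsClosed (Prod.fst '' (bad a)) := isClosedMap_fst_of_compactSpace _ (isClosed_bad a)
  obtain ⟨f, hf1, hf2⟩ := (dense_compl a).inter_open_nonempty _ hcl.isOpen_compl
    ⟨_, one_notMem a ha⟩
  exact ⟨f, noOrth_of_notMem a hf1, hf2⟩

end Pool.Agent.V1194.TTOParam
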