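import Mathlib

/-!
# Shifts on the space of summable sequences
-/

set_option autoImplicit false

namespace Pool.Agent.V1194.EllOne

open Filter Topology TopologicalSpace

/-- Summable real sequences. -/
abbrev L1 := lp (fun _ : ℕ => ℝ) 1

theorem summable (f : L1) : Summable fun i => ‖f i‖ := by
  have := (memℓp_gen_iff (p := 1) (by simp)).1 (lp.memℓp f)
  simpa using this

theorem norm_eq (f : L1) : ‖f‖ = ∑' i, ‖f i‖ := by
  rw [lp.norm_eq_tsum_rpow (by simp)]
  simp

theorem memℓp_of {f : ℕ → ℝ} (h : Summable fun i => ‖f i‖) : Memℓp f 1 := by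
  apply memℓp_gen
  simpa using h

/-- The backward shift multiplied by two, as a linear map. -/
noncomputable def bLin : L1 →ₗ[ℝ] L1 where
  toFun f := ⟨fun i => 2 * f (i + 1), memℓp_of (by
    have := ((summable_nat_add_iff 1).2 (summable f)).mul_left 2
    simpa [norm_mul] using this)⟩
  map_add' f g := by
    ext i
    show 2 * (f + g : L1) (i + 1) = 2 * f (i + 1) + 2 * g (i + 1)
    rw [lp.coeFn_add, Pi.add_apply]; ring
  map_smul' c f := by
    ext i
    show 2 * (c • f : L1) (i + 1) = c * (2 * f (i + 1))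
    rw [lp.coeFn_smul, Pi.smul_apply, smul_eq_mul]; ring

theorem bLin_apply (f : L1) (i : ℕ) : bLin f i = 2 * f (i + 1) := rfl

/-- Twice the backward shift. -/
noncomputable def T : L1 →L[ℝ] L1 := bLin.mkContinuous 2 fun f => by
  rw [norm_eq, norm_eq, (summable f).tsum_eq_zero_add, mul_add, ← tsum_mul_left]
  have : ∀ i, ‖bLin f i‖ = 2 * ‖f (i + 1)‖ := by
    intro i; rw [bLin_apply, norm_mul]; norm_num
  simp only [this]
  have := norm_nonneg (f 0)
  linarith

theorem T_apply (f : L1) (i : ℕ) : T f i = 2 * f (i + 1) := rfl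

/-- The forward shift divided by two, as a function. -/
noncomputable def fFun (f : L1) : ℕ → ℝ := fun i => Nat.casesOn i 0 fun k => f k / 2

theorem fFun_zero (f : L1) : fFun f 0 = 0 := rfl

theorem fFun_succ (f : L1) (i : ℕ) : fFun f (i + 1) = f i / 2 := rfl

theorem fFun_summable (f : L1) : Summable fun i => ‖fFun f i‖ := by
  rw [← summable_nat_add_iff 1]
  have := (summable f).mul_left (1 / 2)
  refine this.congr fun i => ?_
  rw [fFun_succ, norm_div]; norm_num; ring

/-- The forward shift divided by two, as a linear map. -/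
noncomputable def fLin : L1 →ₗ[ℝ] L1 where
  toFun f := ⟨fFun f, memℓp_of (fFun_summable f)⟩
  map_add' f g := by
    ext i
    show fFun (f + g) i = fFun f i + fFun g i
    cases i with
    | zero => simp [fFun_zero]
    | succ i => rw [fFun_succ, fFun_succ, fFun_succ, lp.coeFn_add, Pi.add_apply]; ring
  map_smul' c f := by
    ext i
    show fFun (c • f) i = c * fFun f i
    cases i with
    | zero => simp [fFun_zero]
    | succ i => rw [fFun_succ, fFun_succ, lp.coeFn_smul, Pi.smul_apply, smul_eq_mul]; ring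

theorem fLin_apply (f : L1) (i : ℕ) : fLin f i = fFun f i := rfl

theorem norm_fLin (f : L1) : ‖fLin f‖ = ‖f‖ / 2 := by
  rw [norm_eq, norm_eq]
  have h : Summable fun i => ‖fLin f i‖ := fFun_summable f
  rw [h.tsum_eq_zero_add]
  have : ∀ i, ‖fLin f (i + 1)‖ = 1 / 2 * ‖f i‖ := by
    intro i; rw [fLin_apply, fFun_succ, norm_div]; norm_num; ring
  simp only [this]
  rw [tsum_mul_left, fLin_apply, fFun_zero]
  norm_num; ring

/-- Half the forward shift. -/
noncomputable def S : L1 →L[ℝ] L1 := fLin.mkContinuous (1 / 2) fun f => by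
  rw [norm_fLin]; linarith

theorem S_apply (f : L1) (i : ℕ) : S f i = fFun f i := rfl

theorem norm_S (f : L1) : ‖S f‖ = ‖f‖ / 2 := norm_fLin f

theorem T_S (f : L1) : T (S f) = f := by
  ext i
  rw [T_apply, S_apply, fFun_succ]; ring

theorem iter_T (n : ℕ) (f : L1) (i : ℕ) : (⇑T)^[n] f i = 2 ^ n * f (i + n) := by
  induction n generalizing i with
  | zero => simp
  | succ n ih =>
    rw [Function.iterate_succ_apply', T_apply, ih, pow_succ, show i + 1 + n = i + (n + 1) by ring]
    ring

/-- The span of the unit vectors. -/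
noncomputable def D : Submodule ℝ L1 := Submodule.span ℝ (Set.range fun i : ℕ => (lp.single (E := fun _ : ℕ => ℝ) 1 i (1 : ℝ) : L1))

theorem D_dense : Dense (D : Set L1) := by
  intro f
  have h := lp.hasSum_single (p := 1) (by simp) f
  refine mem_closure_of_tendsto h (Eventually.of_forall fun s => ?_)
  refine Submodule.sum_mem _ fun i _ => ?_
  have : (lp.single (E := fun _ : ℕ => ℝ) 1 i (f i) : L1) =
      (f i) • (lp.single (E := fun _ : ℕ => ℝ) 1 i (1 : ℝ) : L1) := by
    rw [← lp.single_smul, smul_eq_mul, mul_one]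
  rw [this]
  exact Submodule.smul_mem _ _ (Submodule.subset_span ⟨i, rfl⟩)

theorem D_nilpotent {f : L1} (hf : f ∈ D) : ∃ d, (⇑T)^[d] f = 0 := by
  have : ∃ d, ∀ i, d ≤ i → f i = 0 := by
    induction hf using Submodule.span_induction with
    | mem x hx =>
      obtain ⟨i, rfl⟩ := hx
      refine ⟨i + 1, fun k hk => ?_⟩
      exact lp.single_apply_ne _ _ _ (by omega)
    | zero => exact ⟨0, fun i _ => rfl⟩
    | add x y _ _ hx hy =>
      obtain ⟨a, ha⟩ := hx
      obtain ⟨b, hb⟩ := hy
      refine ⟨max a b, fun i hi => ?_⟩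
      rw [lp.coeFn_add, Pi.add_apply, ha i (le_of_max_le_left hi), hb i (le_of_max_le_right hi),
        add_zero]
    | smul c x _ hx =>
      obtain ⟨a, ha⟩ := hx
      refine ⟨a, fun i hi => ?_⟩
      rw [lp.coeFn_smul, Pi.smul_apply, ha i hi, smul_zero]
  obtain ⟨d, hd⟩ := this
  refine ⟨d, ?_⟩
  ext i
  rw [iter_T, hd _ (by omega), mul_zero]
  rfl

/-- A dense sequence of finitely supported vectors. -/
theorem exists_seq : ∃ e : ℕ → L1, DenseRange e ∧ ∀ i, ∃ d, (⇑T)^[d] (e i) = 0 := by
  have h1 : IsSeparable (D : Set L1) :=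
    (Set.countable_range fun i : ℕ =>
      (lp.single (E := fun _ : ℕ => ℝ) 1 i (1 : ℝ) : L1)).isSeparable.span
  obtain ⟨t, htD, htc, htd⟩ := h1.exists_countable_dense_subset
  have hdense : Dense t := by
    intro f
    exact closure_minimal htd isClosed_closure (D_dense f)
  have hne : t.Nonempty := hdense.nonempty
  obtain ⟨e, he⟩ := htc.exists_eq_range hne
  refine ⟨e, ?_, fun i => D_nilpotent (htD ?_)⟩
  · rw [DenseRange, ← he]; exact hdense
  · rw [he]; exact ⟨i, rfl⟩

/-- The sequence of blocks. -/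
theorem exists_blocks : ∃ z : ℕ → L1, (∀ j, (⇑T)^[j] (z j) = 0) ∧ (∀ j, ‖z j‖ ≤ 2 ^ j) ∧
    ∀ U : Set L1, IsOpen U → U.Nonempty → ∃ j, Metric.closedBall (z j) ((1 / 2) ^ j) ⊆ U := by
  classical
  obtain ⟨e, hed, he⟩ := exists_seq
  refine ⟨fun j => if (⇑T)^[j] (e (Nat.unpair j).1) = 0 ∧ ‖e (Nat.unpair j).1‖ ≤ 2 ^ j
    then e (Nat.unpair j).1 else 0, ?_, ?_, ?_⟩
  · intro j
    dsimp only
    split_ifs with h
    · exact h.1
    · exact iterate_map_zero T j
  · intro j
    dsimp only
    split_ifs with h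
    · exact h.2
    · rw [norm_zero]; positivity
  · intro U hU hne
    obtain ⟨i, hi⟩ := hed.exists_mem_open hU hne
    obtain ⟨ε, hε, hball⟩ := Metric.isOpen_iff.1 hU _ hi
    obtain ⟨d, hd⟩ := he i
    obtain ⟨n1, hn1⟩ := exists_pow_lt_of_lt_one hε (show (1 / 2 : ℝ) < 1 by norm_num)
    obtain ⟨n2, hn2⟩ := pow_unbounded_of_one_lt ‖e i‖ (show (1 : ℝ) < 2 by norm_num)
    refine ⟨Nat.pair i (max d (max n1 n2)), ?_⟩
    set j := Nat.pair i (max d (max n1 n2)) with hj
    have hj0 : max d (max n1 n2) ≤ j := Nat.right_le_pair _ _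
    have hjd : d ≤ j := (le_max_left _ _).trans hj0
    have hj1 : n1 ≤ j := ((le_max_left _ _).trans (le_max_right _ _)).trans hj0
    have hj2 : n2 ≤ j := ((le_max_right _ _).trans (le_max_right _ _)).trans hj0
    have hu : (Nat.unpair j).1 = i := by rw [hj, Nat.unpair_pair]
    have h1 : (⇑T)^[j] (e i) = 0 := by
      obtain ⟨c, hc⟩ := Nat.exists_eq_add_of_le hjd
      rw [hc, add_comm, Function.iterate_add_apply, hd]
      exact iterate_map_zero T c
    have h2 : ‖e i‖ ≤ 2 ^ j := hn2.le.trans (pow_le_pow_right₀ (by norm_num) hj2)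
    simp only [hu, h1, h2, and_self, if_true]
    refine (Metric.closedBall_subset_ball ?_).trans hball
    exact lt_of_le_of_lt (pow_le_pow_of_le_one (by norm_num) (by norm_num) hj1) hn1

end Pool.Agent.V1194.EllOne
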