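import Pool.Agent.V1194.RulerFHC

set_option autoImplicit false

namespace Pool.Agent.V1194.RulerFHC

open Finset Filter Topology

section Vector

variable {X : Type*} [NormedAddCommGroup X] [NormedSpace ℝ X] [CompleteSpace X]
  {T S : X →L[ℝ] X} {z : ℕ → X}

/-- The index number `t` of valuation `j` in the active interval starting at `4 ^ r`. -/
theorem v_idx {r j t : ℕ} (hj : j < 2 * r) :
    v (2 ^ j * (2 ^ (2 * r - j) + 2 * t + 1)) = j := by
  unfold v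
  have hodd : ¬ 2 ∣ (2 ^ (2 * r - j) + 2 * t + 1) := by
    have : 2 ^ (2 * r - j) = 2 * 2 ^ (2 * r - j - 1) := by
      rw [← pow_succ']; congr 1; omega
    omega
  rw [padicValNat.mul (by positivity) (by omega), padicValNat.prime_pow,
    padicValNat.eq_zero_of_not_dvd hodd, add_zero]

theorem act_idx {r j t : ℕ} (hj : j < 2 * r) (ht : t < 2 ^ (2 * r - j - 1)) :
    Act (2 ^ j * (2 ^ (2 * r - j) + 2 * t + 1)) ∧
      2 ^ j * (2 ^ (2 * r - j) + 2 * t + 1) < 2 * 4 ^ r := by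
  have h4 : (4 : ℕ) ^ r = 2 ^ j * (2 * 2 ^ (2 * r - j - 1)) := by
    rw [← pow_succ', ← pow_add, show j + (2 * r - j - 1 + 1) = 2 * r by omega, pow_mul]
    norm_num
  have h5 : 2 ^ (2 * r - j) = 2 * 2 ^ (2 * r - j - 1) := by
    rw [← pow_succ']; congr 1; omega
  have hj0 : 0 < 2 ^ j := by positivity
  have h6 : 2 ^ j * (2 ^ (2 * r - j) + 2 * t + 1) < 2 * 4 ^ r := by
    rw [h4, h5]
    have : 2 * (2 ^ j * (2 * 2 ^ (2 * r - j - 1))) = 2 ^ j * (2 * 2 ^ (2 * r - j - 1) + 2 * 2 ^ (2 * r - j - 1)) := by ring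
    rw [this]
    exact Nat.mul_lt_mul_of_pos_left (by omega) hj0
  refine ⟨act_of ?_ h6, h6⟩
  rw [h4, h5]
  exact Nat.mul_le_mul_left _ (by omega)

theorem count (hTS : ∀ x, T (S x) = x) (hS : ∀ x, ‖S x‖ ≤ ‖x‖ / 2)
    (hz : ∀ j, (⇑T)^[j] (z j) = 0) (hz2 : ∀ j, ‖z j‖ ≤ 2 ^ j)
    {U : Set X} {j : ℕ} (hU : Metric.closedBall (z j) ((1 / 2) ^ j) ⊆ U) {r N : ℕ} (hj : j < 2 * r)
    (hN : 6 * 4 ^ r ≤ N) :
    2 ^ (2 * r - j - 1) ≤ {k : ℕ | k < N ∧ (⇑T)^[k] (vec S z) ∈ U}.ncard := by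
  classical
  let f : ℕ → ℕ := fun t => pos (2 ^ j * (2 ^ (2 * r - j) + 2 * t + 1))
  have hf : Function.Injective f := by
    intro s t hst
    have h1 := pos_strictMono.injective hst
    have h2 := Nat.eq_of_mul_eq_mul_left (by positivity) h1
    omega
  have h1 : ((Finset.range (2 ^ (2 * r - j - 1))).image f).card = 2 ^ (2 * r - j - 1) := by
    rw [Finset.card_image_of_injective _ hf, Finset.card_range]
  rw [← h1, ← Set.ncard_coe_finset]
  refine Set.ncard_le_ncard ?_ ((Set.finite_lt_nat N).subset fun k hk => hk.1)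
  intro n hn
  simp only [Finset.coe_image, Finset.coe_range, Set.mem_image, Set.mem_Iio] at hn
  obtain ⟨t, ht, rfl⟩ := hn
  obtain ⟨h2, h3⟩ := act_idx hj ht
  refine ⟨?_, hU ?_⟩
  · have := pos_le (2 ^ j * (2 ^ (2 * r - j) + 2 * t + 1))
    show pos (2 ^ j * (2 ^ (2 * r - j) + 2 * t + 1)) < N
    omega
  · have := visit hTS hS hz hz2 h2
    rw [v_idx hj] at this
    rw [Metric.mem_closedBall, dist_eq_norm]
    exact this

theorem freq (hTS : ∀ x, T (S x) = x) (hS : ∀ x, ‖S x‖ ≤ ‖x‖ / 2)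
    (hz : ∀ j, (⇑T)^[j] (z j) = 0) (hz2 : ∀ j, ‖z j‖ ≤ 2 ^ j)
    {U : Set X} {j : ℕ} (hU : Metric.closedBall (z j) ((1 / 2) ^ j) ⊆ U) :
    ∃ δ : ℝ, 0 < δ ∧ ∀ᶠ n : ℕ in Filter.atTop,
          δ * (n : ℝ) ≤ (({k : ℕ | k < n ∧ (⇑T)^[k] (vec S z) ∈ U}.ncard : ℕ) : ℝ) := by
  refine ⟨(1 / 2) ^ (j + 1) / 24, by positivity, ?_⟩
  filter_upwards [eventually_ge_atTop (6 * 4 ^ (j + 1))] with N hN
  set r := Nat.log 4 (N / 6) with hr
  have hN6 : 4 ^ (j + 1) ≤ N / 6 := by omega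
  have hj : j + 1 ≤ r := Nat.le_log_of_pow_le (by norm_num) hN6
  have h1 : 4 ^ r ≤ N / 6 := Nat.pow_log_le_self 4 (by have : 0 < 4 ^ (j + 1) := by positivity
                                                       omega)
  have h2 : N / 6 < 4 ^ (r + 1) := Nat.lt_pow_succ_log_self (by norm_num) _
  have h3 : N < 24 * 4 ^ r := by rw [pow_succ] at h2; omega
  have h4 := count (T := T) (S := S) (z := z) (U := U) (j := j) (r := r) (N := N) hTS hS hz hz2 hU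
    (by omega) (by omega)
  have h5 : (2 : ℝ) ^ (2 * r - j - 1) ≤ (({k : ℕ | k < N ∧ (⇑T)^[k] (vec S z) ∈ U}.ncard : ℕ) : ℝ) := by
    exact_mod_cast h4
  refine le_trans ?_ h5
  have h6 : (2 : ℝ) ^ (2 * r - j - 1) = (1 / 2) ^ (j + 1) * 4 ^ r := by
    have : (4 : ℝ) ^ r = 2 ^ (j + 1) * 2 ^ (2 * r - j - 1) := by
      rw [← pow_add, show j + 1 + (2 * r - j - 1) = 2 * r by omega, pow_mul]; norm_num
    rw [this, ← mul_assoc, ← mul_pow]; norm_num
  rw [h6]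
  have h7 : (N : ℝ) ≤ 24 * 4 ^ r := by exact_mod_cast h3.le
  have h8 : (0 : ℝ) < (1 / 2) ^ (j + 1) := by positivity
  calc (1 / 2 : ℝ) ^ (j + 1) / 24 * N ≤ (1 / 2) ^ (j + 1) / 24 * (24 * 4 ^ r) := by gcongr
    _ = (1 / 2) ^ (j + 1) * 4 ^ r := by ring

theorem no_density (hTS : ∀ x, T (S x) = x) (hS : ∀ x, ‖S x‖ ≤ ‖x‖ / 2)
    (hz : ∀ j, (⇑T)^[j] (z j) = 0) (hz2 : ∀ j, ‖z j‖ ≤ 2 ^ j)
    {A : Set ℕ} (hA : A ⊆ {k : ℕ | (⇑T)^[k] (vec S z) ∈ {x : X | 1 < ‖x‖}}) :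
    ¬ ∃ d : ℝ, 0 < d ∧
            Filter.Tendsto
              (fun n : ℕ => (({k : ℕ | k < n ∧ k ∈ A}.ncard : ℕ) : ℝ) / (n : ℝ))
              Filter.atTop (nhds d) := by
  rintro ⟨d, hd, hlim⟩
  set f : ℕ → ℝ := fun n => (({k : ℕ | k < n ∧ k ∈ A}.ncard : ℕ) : ℝ) with hf
  let P : ℕ → ℕ := fun r => pos (2 * 4 ^ r)
  let Q : ℕ → ℕ := fun r => pos (4 ^ (r + 1) - 1)
  have h4 : ∀ r : ℕ, 0 < 4 ^ r := fun r => by positivity
  have hfPQ : ∀ r, f (P r) = f (Q r) := by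
    intro r
    have : {k : ℕ | k < P r ∧ k ∈ A} = {k : ℕ | k < Q r ∧ k ∈ A} := by
      ext k
      simp only [Set.mem_setOf_eq]
      constructor
      · rintro ⟨h1, h2⟩
        refine ⟨h1.trans_le (pos_strictMono.monotone ?_), h2⟩
        have := h4 r
        rw [pow_succ]; omega
      · rintro ⟨h1, h2⟩
        refine ⟨?_, h2⟩
        by_contra h3
        have h5 := gap hTS hS hz hz2 (not_lt.1 h3) h1.le
        have h6 := hA h2
        simp only [Set.mem_setOf_eq] at h6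
        linarith
    simp only [hf, this]
  have hP : Tendsto P atTop atTop := by
    refine tendsto_atTop_mono (fun r => ?_) tendsto_id
    have h1 := le_pos (2 * 4 ^ r)
    have h2 := Nat.lt_pow_self (n := r) (show 1 < 4 by norm_num)
    show r ≤ pos (2 * 4 ^ r)
    omega
  have hQ : Tendsto Q atTop atTop := by
    refine tendsto_atTop_mono (fun r => ?_) tendsto_id
    have h1 := le_pos (4 ^ (r + 1) - 1)
    have h2 := Nat.lt_pow_self (n := r + 1) (show 1 < 4 by norm_num)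
    show r ≤ pos (4 ^ (r + 1) - 1)
    omega
  have hPQ : ∀ᶠ r in atTop, 0 < P r ∧ (P r : ℝ) ≤ 4 / 5 * Q r := by
    filter_upwards [eventually_ge_atTop 3] with r hr
    have h1 : P r ≤ 6 * 4 ^ r := by
      have := pos_le (2 * 4 ^ r)
      show pos (2 * 4 ^ r) ≤ _
      omega
    have h2 : P r + (2 * 4 ^ r - 1) ≤ Q r := by
      have h5 : 2 * 4 ^ r < 4 ^ (r + 1) - 1 := by
        have : 4 ^ 3 ≤ 4 ^ r := Nat.pow_le_pow_right (by norm_num) hr
        rw [pow_succ]; omega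
      have := pos_gap h5
      show pos (2 * 4 ^ r) + _ ≤ pos (4 ^ (r + 1) - 1)
      rw [pow_succ] at *
      omega
    have h3 : 4 ^ 3 ≤ 4 ^ r := Nat.pow_le_pow_right (by norm_num) hr
    have h6 : 0 < P r := by
      have := le_pos (2 * 4 ^ r)
      show 0 < pos (2 * 4 ^ r)
      omega
    refine ⟨h6, ?_⟩
    have h7 : 5 * P r ≤ 4 * Q r := by omega
    have h8 : (5 : ℝ) * P r ≤ 4 * Q r := by exact_mod_cast h7
    linarith
  have hlP := hlim.comp hP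
  have hlQ := hlim.comp hQ
  have hle : ∀ᶠ r in atTop, f (Q r) / (Q r : ℝ) ≤ 4 / 5 * (f (P r) / (P r : ℝ)) := by
    filter_upwards [hPQ] with r hr
    rw [← hfPQ r]
    have hP0 : (0 : ℝ) < P r := by exact_mod_cast hr.1
    have hQ0 : (0 : ℝ) < Q r := by linarith [hr.2]
    have hf0 : 0 ≤ f (P r) := by simp only [hf]; positivity
    rw [div_le_iff₀ hQ0]
    have : 4 / 5 * (f (P r) / (P r : ℝ)) * Q r = f (P r) * ((4 / 5 * Q r) / P r) := by ring
    rw [this]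
    refine le_mul_of_one_le_right hf0 ?_
    rw [one_le_div hP0]
    exact hr.2
  have := le_of_tendsto_of_tendsto hlQ (hlP.const_mul (4 / 5)) hle
  linarith

end Vector

end Pool.Agent.V1194.RulerFHC
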