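import Mathlib

/-!
# A contraction semigroup with a resolvent lower bound that is not bounded below

On `ℓ²(ℕ; L²(ℝ))` we take the semigroup `(T_t x)_k = e^{-σ_k t} x_k(· - t)`, `σ_k = 4^{-k}`, restricted to
the closed subspace of those `x` with `x_k = √2 e^{-(σ_k - σ_{k+1}) s} 1_{s > 0} x_{k+1}` for all `k`.
-/

set_option autoImplicit false

namespace Pool.Agent.V1194.ResSemi

open MeasureTheory Filter Topology
open scoped ENNReal

/-- Square integrable functions on the line. -/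
noncomputable abbrev K := Lp ℂ 2 (volume : Measure ℝ)

section Mul

theorem memLp_mul (φ : ℝ → ℂ) (hφ : Measurable φ) (hb : ∀ s, ‖φ s‖ ≤ 1) (f : K) :
    MemLp (fun s => φ s * f s) 2 (volume : Measure ℝ) :=
  (Lp.memLp f).of_le (hφ.aestronglyMeasurable.mul (Lp.aestronglyMeasurable f))
    (Eventually.of_forall fun s => by
      rw [norm_mul]
      exact mul_le_of_le_one_left (norm_nonneg _) (hb s))

/-- Multiplication by a function bounded by one. -/
noncomputable def mulLin (φ : ℝ → ℂ) (hφ : Measurable φ) (hb : ∀ s, ‖φ s‖ ≤ 1) : K →ₗ[ℂ] K where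
  toFun f := MemLp.toLp (fun s => φ s * f s) (memLp_mul φ hφ hb f)
  map_add' f g := by
    rw [← MemLp.toLp_add]
    apply MemLp.toLp_congr
    filter_upwards [Lp.coeFn_add f g] with s hs
    simp only [hs, Pi.add_apply, mul_add]
  map_smul' c f := by
    simp only [RingHom.id_apply]
    rw [← MemLp.toLp_const_smul]
    apply MemLp.toLp_congr
    filter_upwards [Lp.coeFn_smul c f] with s hs
    simp only [hs, Pi.smul_apply, smul_eq_mul]
    ring

theorem mulLin_ae (φ : ℝ → ℂ) (hφ : Measurable φ) (hb : ∀ s, ‖φ s‖ ≤ 1) (f : K) :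
    mulLin φ hφ hb f =ᵐ[volume] fun s => φ s * f s :=
  MemLp.coeFn_toLp (memLp_mul φ hφ hb f)

theorem norm_mulLin_le (φ : ℝ → ℂ) (hφ : Measurable φ) (hb : ∀ s, ‖φ s‖ ≤ 1) (f : K) :
    ‖mulLin φ hφ hb f‖ ≤ 1 * ‖f‖ := by
  rw [one_mul]
  apply Lp.norm_le_norm_of_ae_le
  filter_upwards [mulLin_ae φ hφ hb f] with s hs
  rw [hs, norm_mul]
  exact mul_le_of_le_one_left (norm_nonneg _) (hb s)

/-- The function `e^{-δ s}` for `s > 0` and `0` otherwise. -/
noncomputable def phi (δ : ℝ) (s : ℝ) : ℂ := if 0 < s then ((Real.exp (-δ * s) : ℝ) : ℂ) else 0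

theorem measurable_phi (δ : ℝ) : Measurable (phi δ) := by
  unfold phi
  refine Measurable.ite measurableSet_Ioi ?_ measurable_const
  fun_prop

theorem norm_phi_le {δ : ℝ} (hδ : 0 ≤ δ) (s : ℝ) : ‖phi δ s‖ ≤ 1 := by
  unfold phi
  split_ifs with h
  · rw [Complex.norm_real, Real.norm_eq_abs, abs_of_pos (Real.exp_pos _)]
    apply Real.exp_le_one_iff.2
    nlinarith
  · simp

end Mul

section Shift

/-- Translation to the right by `t`. -/
noncomputable def V (t : ℝ) (f : K) : K := DomAddAct.mk (-t) +ᵥ f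

theorem V_ae (t : ℝ) (f : K) : V t f =ᵐ[volume] fun s => f (s - t) := by
  have h := DomAddAct.vadd_Lp_ae_eq (DomAddAct.mk (-t)) f
  filter_upwards [h] with s hs
  rw [V, hs]
  simp [sub_eq_neg_add]

theorem norm_V (t : ℝ) (f : K) : ‖V t f‖ = ‖f‖ := DomAddAct.norm_vadd_Lp _ _

theorem V_add (t : ℝ) (f g : K) : V t (f + g) = V t f + V t g := DomAddAct.vadd_Lp_add _ _ _

theorem V_smul (t : ℝ) (c : ℂ) (f : K) : V t (c • f) = c • V t f := by
  apply Lp.ext
  filter_upwards [V_ae t (c • f), Lp.coeFn_smul c (V t f), V_ae t f,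
    (measurePreserving_sub_right volume t).quasiMeasurePreserving.ae (Lp.coeFn_smul c f)] with s h1 h2 h3 h4
  rw [h1, h2, h4, Pi.smul_apply, Pi.smul_apply, h3]

theorem V_zero (f : K) : V 0 f = f := by
  rw [V, neg_zero]
  exact zero_vadd _ f

theorem V_V (s t : ℝ) (f : K) : V s (V t f) = V (s + t) f := by
  apply Lp.ext
  filter_upwards [V_ae s (V t f), V_ae (s + t) f,
    (measurePreserving_sub_right volume s).quasiMeasurePreserving.ae (V_ae t f)] with r h1 h2 h3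
  rw [h1, h2, h3]
  congr 1
  ring

theorem continuous_V (f : K) : Continuous fun t : ℝ => V t f := by
  unfold V
  have : Fact ((2 : ℝ≥0∞) ≠ ∞) := ⟨by simp⟩
  have h1 : Continuous fun t : ℝ => (DomAddAct.mk (-t) : ℝᵈᵃᵃ) :=
    DomAddAct.continuous_mk.comp continuous_neg
  exact h1.vadd continuous_const

end Shift

section Big

/-- The big space. -/
noncomputable abbrev E := lp (fun _ : ℕ => K) 2

/-- The decay rates. -/
noncomputable def sig (k : ℕ) : ℝ := (1 / 4 : ℝ) ^ k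

theorem sig_pos (k : ℕ) : 0 < sig k := by unfold sig; positivity

theorem sig_succ (k : ℕ) : sig k = 4 * sig (k + 1) := by unfold sig; rw [pow_succ]; ring

theorem summable_sq (x : E) : Summable fun k => ‖x k‖ ^ 2 := by
  have := (memℓp_gen_iff (p := 2) (by simp)).1 (lp.memℓp x)
  simpa using this

theorem norm_sq (x : E) : ‖x‖ ^ 2 = ∑' k, ‖x k‖ ^ 2 := by
  have := lp.norm_rpow_eq_tsum (p := 2) (by simp) x
  simpa using this

theorem memE {x : ℕ → K} (h : Summable fun k => ‖x k‖ ^ 2) : Memℓp x 2 := by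
  apply memℓp_gen
  simpa using h

/-- The components of the semigroup. -/
noncomputable def comp (t : ℝ) (k : ℕ) (f : K) : K := ((Real.exp (-sig k * t) : ℝ) : ℂ) • V t f

theorem norm_comp (t : ℝ) (k : ℕ) (f : K) : ‖comp t k f‖ = Real.exp (-sig k * t) * ‖f‖ := by
  rw [comp, norm_smul, norm_V, Complex.norm_real, Real.norm_eq_abs, abs_of_pos (Real.exp_pos _)]

theorem norm_comp_le {t : ℝ} (ht : 0 ≤ t) (k : ℕ) (f : K) : ‖comp t k f‖ ≤ ‖f‖ := by
  rw [norm_comp]
  refine mul_le_of_le_one_left (norm_nonneg _) (Real.exp_le_one_iff.2 ?_)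
  nlinarith [sig_pos k]

theorem summable_comp {t : ℝ} (ht : 0 ≤ t) (x : E) : Summable fun k => ‖comp t k (x k)‖ ^ 2 :=
  Summable.of_nonneg_of_le (fun k => by positivity)
    (fun k => pow_le_pow_left₀ (norm_nonneg _) (norm_comp_le ht k (x k)) 2) (summable_sq x)

/-- The semigroup on the big space, for nonnegative times. -/
noncomputable def TLin (t : ℝ) (ht : 0 ≤ t) : E →ₗ[ℂ] E where
  toFun x := ⟨fun k => comp t k (x k), memE (summable_comp ht x)⟩
  map_add' x y := by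
    ext1
    funext k
    show comp t k ((x + y) k) = comp t k (x k) + comp t k (y k)
    rw [lp.coeFn_add, Pi.add_apply, comp, comp, comp, V_add, smul_add]
  map_smul' c x := by
    ext1
    funext k
    show comp t k ((c • x) k) = c • comp t k (x k)
    rw [lp.coeFn_smul, Pi.smul_apply, comp, comp, V_smul, smul_comm]

theorem TLin_apply (t : ℝ) (ht : 0 ≤ t) (x : E) (k : ℕ) : TLin t ht x k = comp t k (x k) := rfl

theorem norm_TLin_le (t : ℝ) (ht : 0 ≤ t) (x : E) : ‖TLin t ht x‖ ≤ 1 * ‖x‖ := by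
  rw [one_mul]
  refine (pow_le_pow_iff_left₀ (norm_nonneg _) (norm_nonneg _) two_ne_zero).1 ?_
  rw [norm_sq, norm_sq]
  refine Summable.tsum_le_tsum (fun k => ?_) (summable_comp ht x) (summable_sq x)
  exact pow_le_pow_left₀ (norm_nonneg _) (norm_comp_le ht k (x k)) 2

/-- The semigroup on the big space. -/
noncomputable def TE (t : ℝ) : E →L[ℂ] E :=
  (TLin (max t 0) (le_max_right _ _)).mkContinuous 1 (norm_TLin_le _ _)

theorem TE_apply {t : ℝ} (ht : 0 ≤ t) (x : E) (k : ℕ) : TE t x k = comp t k (x k) := by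
  show comp (max t 0) k (x k) = _
  rw [max_eq_left ht]

theorem norm_TE_le (t : ℝ) : ‖TE t‖ ≤ 1 :=
  LinearMap.mkContinuous_norm_le _ zero_le_one _

theorem TE_zero : TE 0 = ContinuousLinearMap.id ℂ E := by
  ext1 x
  apply lp.ext
  funext k
  rw [TE_apply le_rfl, comp, V_zero]
  simp

theorem TE_add {s t : ℝ} (hs : 0 ≤ s) (ht : 0 ≤ t) : TE (s + t) = (TE s).comp (TE t) := by
  ext1 x
  apply lp.ext
  funext k
  rw [ContinuousLinearMap.comp_apply, TE_apply (add_nonneg hs ht), TE_apply hs, TE_apply ht, comp, comp,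
    comp, V_smul, V_V, smul_smul, ← Complex.ofReal_mul, ← Real.exp_add]
  congr 4
  ring

theorem continuous_comp (k : ℕ) (f : K) : Continuous fun t => comp t k f := by
  have h1 : Continuous fun t : ℝ => ((Real.exp (-sig k * t) : ℝ) : ℂ) := by fun_prop
  exact h1.smul (continuous_V f)

theorem continuousOn_TE (x : E) : ContinuousOn (fun t : ℝ => TE t x) (Set.Ici 0) := by
  intro t0 ht0
  have ht0' : (0 : ℝ) ≤ t0 := ht0
  rw [ContinuousWithinAt, tendsto_iff_norm_sub_tendsto_zero]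
  have h1 : Tendsto (fun t : ℝ => ∑' k, ‖comp t k (x k) - comp t0 k (x k)‖ ^ 2)
      (𝓝[Set.Ici 0] t0) (𝓝 (∑' k : ℕ, (0 : ℝ))) := by
    refine tendsto_tsum_of_dominated_convergence (bound := fun k => 4 * ‖x k‖ ^ 2)
      ((summable_sq x).mul_left 4) ?_ ?_
    · intro k
      have h2 : Tendsto (fun t : ℝ => comp t k (x k) - comp t0 k (x k)) (𝓝[Set.Ici 0] t0) (𝓝 0) := by
        have := ((continuous_comp k (x k)).tendsto t0).sub_const (comp t0 k (x k))
        rw [sub_self] at this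
        exact this.mono_left nhdsWithin_le_nhds
      have h3 := (h2.norm).pow 2
      simpa using h3
    · filter_upwards [self_mem_nhdsWithin] with t ht k
      have ht' : (0 : ℝ) ≤ t := ht
      rw [Real.norm_eq_abs, abs_of_nonneg (by positivity)]
      have h4 : ‖comp t k (x k) - comp t0 k (x k)‖ ≤ 2 * ‖x k‖ := by
        refine (norm_sub_le _ _).trans ?_
        linarith [norm_comp_le ht' k (x k), norm_comp_le ht0' k (x k)]
      calc ‖comp t k (x k) - comp t0 k (x k)‖ ^ 2 ≤ (2 * ‖x k‖) ^ 2 :=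
            pow_le_pow_left₀ (norm_nonneg _) h4 2
        _ = 4 * ‖x k‖ ^ 2 := by ring
  rw [tsum_zero] at h1
  have h5 : Tendsto (fun t : ℝ => ‖TE t x - TE t0 x‖ ^ 2) (𝓝[Set.Ici 0] t0) (𝓝 0) := by
    refine h1.congr' ?_
    filter_upwards [self_mem_nhdsWithin] with t ht
    rw [norm_sq]
    refine tsum_congr fun k => ?_
    rw [lp.coeFn_sub, Pi.sub_apply, TE_apply ht, TE_apply ht0']
  have h6 := h5.sqrt
  simpa [Real.sqrt_sq] using h6

end Big

section Sub

/-- The rate of the weight between consecutive components. -/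
noncomputable def del (k : ℕ) : ℝ := sig k - sig (k + 1)

theorem del_nonneg (k : ℕ) : 0 ≤ del k := by
  unfold del; rw [sig_succ k]; linarith [sig_pos (k + 1)]

/-- The multiplication operator linking consecutive components. -/
noncomputable def Mk (k : ℕ) : K →L[ℂ] K :=
  (mulLin (phi (del k)) (measurable_phi _) (norm_phi_le (del_nonneg k))).mkContinuous 1
    (norm_mulLin_le _ _ _)

theorem Mk_ae (k : ℕ) (f : K) : Mk k f =ᵐ[volume] fun s => phi (del k) s * f s :=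
  mulLin_ae (phi (del k)) (measurable_phi _) (norm_phi_le (del_nonneg k)) f

theorem norm_Mk_le (k : ℕ) (f : K) : ‖Mk k f‖ ≤ ‖f‖ := by
  have := norm_mulLin_le (phi (del k)) (measurable_phi _) (norm_phi_le (del_nonneg k)) f
  rwa [one_mul] at this

/-- The coordinate maps. -/
noncomputable def coord (k : ℕ) : E →L[ℂ] K :=
  LinearMap.mkContinuous
    { toFun := fun x => x k
      map_add' := fun x y => by rw [lp.coeFn_add, Pi.add_apply]
      map_smul' := fun c x => by rw [lp.coeFn_smul, Pi.smul_apply]; rfl } 1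
    (fun x => by rw [one_mul]; exact lp.norm_apply_le_norm (by simp) x k)

theorem coord_apply (k : ℕ) (x : E) : coord k x = x k := rfl

/-- The closed invariant subspace. -/
noncomputable def H : Submodule ℂ E :=
  ⨅ k : ℕ, LinearMap.ker (coord k - ((Real.sqrt 2 : ℝ) : ℂ) • (Mk k).comp (coord (k + 1))).toLinearMap

theorem mem_H {x : E} : x ∈ H ↔ ∀ k, x k = ((Real.sqrt 2 : ℝ) : ℂ) • Mk k (x (k + 1)) := by
  simp only [H, Submodule.mem_iInf, LinearMap.mem_ker]
  refine forall_congr' fun k => ?_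
  show coord k x - ((Real.sqrt 2 : ℝ) : ℂ) • Mk k (coord (k + 1) x) = 0 ↔ _
  rw [sub_eq_zero]
  rfl

theorem isClosed_H : IsClosed (H : Set E) := by
  have : (H : Set E) = ⋂ k : ℕ, {x : E | coord k x = ((Real.sqrt 2 : ℝ) : ℂ) • Mk k (coord (k + 1) x)} := by
    ext x
    simp only [SetLike.mem_coe, mem_H, Set.mem_iInter]
    rfl
  rw [this]
  refine isClosed_iInter fun k => isClosed_eq (coord k).continuous ?_
  exact ((Mk k).continuous.comp (coord (k + 1)).continuous).const_smul ((Real.sqrt 2 : ℝ) : ℂ)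

theorem TE_mem {t : ℝ} (ht : 0 ≤ t) {x : E} (hx : x ∈ H) : TE t x ∈ H := by
  rw [mem_H] at hx ⊢
  intro k
  rw [TE_apply ht, TE_apply ht]
  apply Lp.ext
  have q := (measurePreserving_sub_right volume t).quasiMeasurePreserving
  have a1 := V_ae t (x k)
  have a2 := V_ae t (x (k + 1))
  have b1 := q.ae (show (x k : K) =ᵐ[volume] fun s => (Real.sqrt 2 : ℂ) * (phi (del k) s * x (k + 1) s) by
    filter_upwards [Lp.coeFn_smul ((Real.sqrt 2 : ℝ) : ℂ) (Mk k (x (k + 1))), Mk_ae k (x (k + 1))] with s h1 h2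
    rw [hx k, h1, Pi.smul_apply, h2, smul_eq_mul])
  have b2 := q.ae (show (x (k + 1) : K) =ᵐ[volume]
      fun s => (Real.sqrt 2 : ℂ) * (phi (del (k + 1)) s * x (k + 1 + 1) s) by
    filter_upwards [Lp.coeFn_smul ((Real.sqrt 2 : ℝ) : ℂ) (Mk (k + 1) (x (k + 1 + 1))),
      Mk_ae (k + 1) (x (k + 1 + 1))] with s h1 h2
    rw [hx (k + 1), h1, Pi.smul_apply, h2, smul_eq_mul])
  filter_upwards [Lp.coeFn_smul ((Real.exp (-sig k * t) : ℝ) : ℂ) (V t (x k)),
    Lp.coeFn_smul ((Real.sqrt 2 : ℝ) : ℂ) (Mk k (comp t (k + 1) (x (k + 1)))),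
    Mk_ae k (comp t (k + 1) (x (k + 1))),
    Lp.coeFn_smul ((Real.exp (-sig (k + 1) * t) : ℝ) : ℂ) (V t (x (k + 1))), a1, a2, b1, b2] with s
    c1 c2 c3 c4 a1 a2 b1 b2
  have d1 : (comp t k (x k) : K) s = ((Real.exp (-sig k * t) : ℝ) : ℂ) * x k (s - t) := by
    rw [comp, c1, Pi.smul_apply, a1, smul_eq_mul]
  have d2 : (comp t (k + 1) (x (k + 1)) : K) s =
      ((Real.exp (-sig (k + 1) * t) : ℝ) : ℂ) * x (k + 1) (s - t) := by
    rw [comp, c4, Pi.smul_apply, a2, smul_eq_mul]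
  rw [d1, c2, Pi.smul_apply, c3, d2, b1, smul_eq_mul]
  by_cases hst : 0 < s - t
  · have hs : 0 < s := by linarith
    simp only [phi, if_pos hst, if_pos hs]
    have e1 : Real.exp (-sig k * t) * Real.exp (-del k * (s - t)) =
        Real.exp (-del k * s) * Real.exp (-sig (k + 1) * t) := by
      rw [← Real.exp_add, ← Real.exp_add]
      congr 1
      unfold del; ring
    have e2 : ((Real.exp (-sig k * t) : ℝ) : ℂ) * ((Real.exp (-del k * (s - t)) : ℝ) : ℂ) =
        ((Real.exp (-del k * s) : ℝ) : ℂ) * ((Real.exp (-sig (k + 1) * t) : ℝ) : ℂ) := by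
      rw [← Complex.ofReal_mul, ← Complex.ofReal_mul, e1]
    linear_combination (Real.sqrt 2 : ℂ) * x (k + 1) (s - t) * e2
  · have h0 : x (k + 1) (s - t) = 0 := by
      rw [b2]
      simp [phi, hst]
    rw [h0]
    simp

/-- The semigroup. -/
noncomputable def T (t : ℝ) : H →L[ℂ] H :=
  ((TE (max t 0)).comp H.subtypeL).codRestrict H fun x => TE_mem (le_max_right _ _) x.2

theorem T_coe {t : ℝ} (ht : 0 ≤ t) (x : H) : ((T t x : H) : E) = TE t (x : E) := by
  show TE (max t 0) (x : E) = _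
  rw [max_eq_left ht]

theorem T_zero : T 0 = ContinuousLinearMap.id ℂ H := by
  ext1 x
  apply Subtype.ext
  rw [T_coe le_rfl, TE_zero]
  rfl

theorem T_add {s t : ℝ} (hs : 0 ≤ s) (ht : 0 ≤ t) : T (s + t) = (T s).comp (T t) := by
  ext1 x
  apply Subtype.ext
  rw [T_coe (add_nonneg hs ht), ContinuousLinearMap.comp_apply, T_coe hs, T_coe ht, TE_add hs ht]
  rfl

theorem norm_T_le (t : ℝ) : ‖T t‖ ≤ 1 := by
  refine ContinuousLinearMap.opNorm_le_bound _ zero_le_one fun x => ?_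
  show ‖TE (max t 0) (x : E)‖ ≤ 1 * ‖(x : E)‖
  exact (TE (max t 0)).le_of_opNorm_le (norm_TE_le _) _

theorem continuousOn_T (x : H) : ContinuousOn (fun t : ℝ => T t x) (Set.Ici 0) := by
  rw [continuousOn_iff_continuous_domRestrict]
  refine Continuous.subtype_mk (f := fun t : Set.Ici (0 : ℝ) => TE (max (t : ℝ) 0) (x : E)) ?_ _
  have h := continuousOn_iff_continuous_domRestrict.1 (continuousOn_TE (x : E))
  refine h.congr fun t => ?_
  show TE (t : ℝ) (x : E) = TE (max (t : ℝ) 0) (x : E)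
  rw [max_eq_left t.2]

end Sub

section Bound

theorem comp_deriv (k : ℕ) (f g : K)
    (h : Tendsto (fun h : ℝ => ((h : ℂ)⁻¹) • (comp h k f - f)) (𝓝[>] 0) (𝓝 g)) :
    (inner ℂ f g).re = -sig k * ‖f‖ ^ 2 := by
  have h1 : Tendsto (fun h : ℝ => 2 * (inner ℂ f (((h : ℂ)⁻¹) • (comp h k f - f))).re +
      h * ‖((h : ℂ)⁻¹) • (comp h k f - f)‖ ^ 2) (𝓝[>] 0) (𝓝 (2 * (inner ℂ f g).re + 0 * ‖g‖ ^ 2)) := by
    have a1 : Tendsto (fun h : ℝ => h) (𝓝[>] (0 : ℝ)) (𝓝 0) := tendsto_id.mono_left nhdsWithin_le_nhds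
    have a2 : Tendsto (fun h : ℝ => (inner ℂ f (((h : ℂ)⁻¹) • (comp h k f - f))).re) (𝓝[>] 0)
        (𝓝 (inner ℂ f g).re) :=
      (Complex.continuous_re.tendsto _).comp (tendsto_const_nhds.inner h)
    exact (a2.const_mul 2).add (a1.mul (h.norm.pow 2))
  have h2 : Tendsto (fun h : ℝ => h⁻¹ * (Real.exp (-2 * sig k * h) - 1) * ‖f‖ ^ 2) (𝓝[>] 0)
      (𝓝 ((-2 * sig k) * ‖f‖ ^ 2)) := by
    have hd : HasDerivAt (fun h : ℝ => Real.exp (-2 * sig k * h)) (-2 * sig k) 0 := by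
      have := ((hasDerivAt_id (0 : ℝ)).const_mul (-2 * sig k)).exp
      simpa using this
    have := hd.tendsto_slope_zero_right
    simp only [zero_add, mul_zero, Real.exp_zero, smul_eq_mul] at this
    exact this.mul_const _
  have h3 : (fun h : ℝ => 2 * (inner ℂ f (((h : ℂ)⁻¹) • (comp h k f - f))).re +
      h * ‖((h : ℂ)⁻¹) • (comp h k f - f)‖ ^ 2) =ᶠ[𝓝[>] 0]
      (fun h : ℝ => h⁻¹ * (Real.exp (-2 * sig k * h) - 1) * ‖f‖ ^ 2) := by
    filter_upwards [self_mem_nhdsWithin] with h hh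
    have hh' : (0 : ℝ) < h := hh
    have hc : (h : ℂ) ≠ 0 := by exact_mod_cast hh'.ne'
    set z : K := ((h : ℂ)⁻¹) • (comp h k f - f) with hz
    have e1 : comp h k f = f + (h : ℂ) • z := by
      rw [hz, smul_inv_smul₀ hc]; abel
    have e2 : ‖comp h k f‖ ^ 2 = ‖f‖ ^ 2 + 2 * (h * (inner ℂ f z).re) + h ^ 2 * ‖z‖ ^ 2 := by
      rw [e1, @norm_add_sq ℂ, inner_smul_right, norm_smul, mul_pow]
      simp [Complex.norm_real]
    have e3 : ‖comp h k f‖ ^ 2 = Real.exp (-2 * sig k * h) * ‖f‖ ^ 2 := by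
      rw [norm_comp, mul_pow, ← Real.exp_nat_mul]
      congr 2
      push_cast; ring
    have e4 : (Real.exp (-2 * sig k * h) - 1) * ‖f‖ ^ 2 =
        h * (2 * (inner ℂ f z).re + h * ‖z‖ ^ 2) := by
      linear_combination e2 - e3
    rw [mul_assoc, e4, ← mul_assoc, inv_mul_cancel₀ hh'.ne', one_mul]
  have h4 := tendsto_nhds_unique (h1.congr' h3) h2
  linarith

theorem comp_bound (k : ℕ) (f g : K) (μ : ℂ)
    (h : Tendsto (fun h : ℝ => ((h : ℂ)⁻¹) • (comp h k f - f)) (𝓝[>] 0) (𝓝 g)) :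
    |μ.re + sig k| * ‖f‖ ≤ ‖μ • f - g‖ := by
  rcases eq_or_ne f 0 with rfl | hf
  · simp
  have hf' : 0 < ‖f‖ := norm_pos_iff.2 hf
  have h1 : (inner ℂ f (μ • f - g)).re = (μ.re + sig k) * ‖f‖ ^ 2 := by
    rw [inner_sub_right, Complex.sub_re, comp_deriv k f g h, inner_smul_right, inner_self_eq_norm_sq_to_K]
    have : (μ * (((‖f‖ : ℝ) : ℂ) ^ 2)).re = μ.re * ‖f‖ ^ 2 := by
      rw [← Complex.ofReal_pow, Complex.re_mul_ofReal]
    erw [this]
    ring
  have h2 : |(inner ℂ f (μ • f - g)).re| ≤ ‖f‖ * ‖μ • f - g‖ :=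
    (Complex.abs_re_le_norm _).trans (norm_inner_le_norm _ _)
  rw [h1, abs_mul, abs_of_nonneg (by positivity : (0:ℝ) ≤ ‖f‖ ^ 2)] at h2
  have h3 : ‖f‖ * (|μ.re + sig k| * ‖f‖) ≤ ‖f‖ * ‖μ • f - g‖ := by
    calc ‖f‖ * (|μ.re + sig k| * ‖f‖) = |μ.re + sig k| * ‖f‖ ^ 2 := by ring
      _ ≤ _ := h2
  exact le_of_mul_le_mul_left h3 hf'

theorem step (x : H) (k : ℕ) : ‖(x : E) k‖ ^ 2 ≤ 2 * ‖(x : E) (k + 1)‖ ^ 2 := by
  have h := mem_H.1 x.2 k
  have h2 : ‖(x : E) k‖ ≤ Real.sqrt 2 * ‖(x : E) (k + 1)‖ := by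
    rw [h, norm_smul, Complex.norm_real, Real.norm_eq_abs, abs_of_nonneg (Real.sqrt_nonneg _)]
    exact mul_le_mul_of_nonneg_left (norm_Mk_le k _) (Real.sqrt_nonneg _)
  calc ‖(x : E) k‖ ^ 2 ≤ (Real.sqrt 2 * ‖(x : E) (k + 1)‖) ^ 2 := pow_le_pow_left₀ (norm_nonneg _) h2 2
    _ = _ := by rw [mul_pow, Real.sq_sqrt (by norm_num)]

theorem tendsto_coord (x y : H) (k : ℕ)
    (h : Tendsto (fun h : ℝ => ((h : ℂ)⁻¹) • (T h x - x)) (𝓝[>] 0) (𝓝 y)) :
    Tendsto (fun h : ℝ => ((h : ℂ)⁻¹) • (comp h k ((x : E) k) - (x : E) k)) (𝓝[>] 0) (𝓝 ((y : E) k)) := by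
  have h1 := (((coord k).continuous.comp continuous_subtype_val).tendsto y).comp h
  refine h1.congr' ?_
  filter_upwards [self_mem_nhdsWithin] with t ht
  have ht' : (0 : ℝ) < t := ht
  show coord k (((((t : ℂ)⁻¹) • (T t x - x) : H) : E)) = _
  rw [Submodule.coe_smul, Submodule.coe_sub, map_smul, map_sub, T_coe ht'.le, coord_apply, coord_apply,
    TE_apply ht'.le]

theorem lower (x y : H)
    (h : Tendsto (fun h : ℝ => ((h : ℂ)⁻¹) • (T h x - x)) (𝓝[>] 0) (𝓝 y)) (μ : ℂ) (hμ : μ.re < 0) :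
    (1 / 4 : ℝ) * |μ.re| * ‖x‖ ≤ ‖μ • x - y‖ := by
  set ν := -μ.re with hν
  have hν0 : 0 < ν := by linarith
  have hre : μ.re = -ν := by rw [hν]; ring
  have hb : ∀ k, |sig k - ν| * ‖(x : E) k‖ ≤ ‖μ • (x : E) k - (y : E) k‖ := by
    intro k
    have := comp_bound k _ _ μ (tendsto_coord x y k h)
    rwa [show μ.re + sig k = sig k - ν by rw [hre]; ring] at this
  set g : E := ((μ • x - y : H) : E) with hg
  have hgk : ∀ k, g k = μ • (x : E) k - (y : E) k := fun k => by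
    rw [hg, Submodule.coe_sub, Submodule.coe_smul, lp.coeFn_sub, lp.coeFn_smul]
    rfl
  have hc : ∀ k, ν / 2 ≤ |sig k - ν| → ν ^ 2 * ‖(x : E) k‖ ^ 2 ≤ 4 * ‖g k‖ ^ 2 := by
    intro k hk
    have h1 : ν / 2 * ‖(x : E) k‖ ≤ ‖g k‖ := by
      rw [hgk]
      exact (mul_le_mul_of_nonneg_right hk (norm_nonneg _)).trans (hb k)
    have h2 := pow_le_pow_left₀ (by positivity) h1 2
    nlinarith [h2]
  have hd : ∀ k, ν ^ 2 * ‖(x : E) k‖ ^ 2 ≤ 4 * ‖g k‖ ^ 2 + 8 * ‖g (k + 1)‖ ^ 2 := by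
    intro k
    by_cases hk : ν / 2 ≤ |sig k - ν|
    · have := hc k hk
      nlinarith [sq_nonneg ‖g (k + 1)‖]
    · push Not at hk
      have h1 := abs_lt.1 hk
      have h2 : ν / 2 ≤ |sig (k + 1) - ν| := by
        rw [abs_sub_comm]
        refine le_trans ?_ (le_abs_self _)
        have := sig_succ k
        linarith [h1.1, h1.2]
      have h3 := hc (k + 1) h2
      have h4 := step x k
      nlinarith [sq_nonneg ‖g k‖, sq_nonneg ν, mul_le_mul_of_nonneg_left h4 (sq_nonneg ν)]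
  have hs := summable_sq g
  have hs1 : Summable fun k => ‖g (k + 1)‖ ^ 2 := (summable_nat_add_iff 1).2 hs
  have he : ν ^ 2 * ‖(x : E)‖ ^ 2 ≤ 12 * ‖g‖ ^ 2 := by
    rw [norm_sq, norm_sq, ← tsum_mul_left]
    have a1 : ∑' k, ν ^ 2 * ‖(x : E) k‖ ^ 2 ≤ ∑' k, (4 * ‖g k‖ ^ 2 + 8 * ‖g (k + 1)‖ ^ 2) :=
      Summable.tsum_le_tsum hd ((summable_sq (x : E)).mul_left _) ((hs.mul_left 4).add (hs1.mul_left 8))
    rw [(hs.mul_left 4).tsum_add (hs1.mul_left 8)] at a1
    simp only [tsum_mul_left] at a1 ⊢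
    have a2 : ∑' k, ‖g (k + 1)‖ ^ 2 ≤ ∑' k, ‖g k‖ ^ 2 := by
      have := hs.sum_add_tsum_nat_add 1
      rw [← this, Finset.sum_range_one]
      linarith [sq_nonneg ‖g 0‖]
    linarith
  have hx : ‖x‖ = ‖(x : E)‖ := rfl
  have hgn : ‖μ • x - y‖ = ‖g‖ := rfl
  rw [hx, hgn, hre, abs_neg, abs_of_pos hν0]
  refine (pow_le_pow_iff_left₀ (by positivity) (norm_nonneg _) two_ne_zero).1 ?_
  nlinarith [he, sq_nonneg ‖g‖]

end Bound

section Vec

/-- The indicator function of the unit interval. -/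
noncomputable def chi : K := indicatorConstLp 2 (measurableSet_Ioo : MeasurableSet (Set.Ioo (0 : ℝ) 1))
  (by simp) (1 : ℂ)

/-- The exponential piece. -/
noncomputable def piece (k : ℕ) : K :=
  mulLin (phi (sig k)) (measurable_phi _) (norm_phi_le (sig_pos k).le) chi

theorem norm_piece_le (k : ℕ) : ‖piece k‖ ≤ ‖chi‖ := by
  have := norm_mulLin_le (phi (sig k)) (measurable_phi _) (norm_phi_le (sig_pos k).le) chi
  rwa [one_mul] at this

theorem piece_rel (k : ℕ) : piece k = Mk k (piece (k + 1)) := by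
  apply Lp.ext
  filter_upwards [mulLin_ae (phi (sig k)) (measurable_phi _) (norm_phi_le (sig_pos k).le) chi,
    mulLin_ae (phi (sig (k + 1))) (measurable_phi _) (norm_phi_le (sig_pos (k + 1)).le) chi,
    Mk_ae k (piece (k + 1))] with s h1 h2 h3
  rw [h3]
  unfold piece
  rw [h1, h2, ← mul_assoc]
  congr 1
  unfold phi
  split_ifs with hs
  · rw [← Complex.ofReal_mul, ← Real.exp_add]
    congr 2
    unfold del; ring
  · simp

theorem piece_ne : piece 0 ≠ 0 := by
  intro h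
  have h1 := mulLin_ae (phi (sig 0)) (measurable_phi _) (norm_phi_le (sig_pos 0).le) chi
  have h2 : (piece 0 : K) =ᵐ[volume] 0 := by rw [h]; exact Lp.coeFn_zero _ _ _
  have h3 : (chi : K) =ᵐ[volume] Set.indicator (Set.Ioo (0 : ℝ) 1) fun _ => (1 : ℂ) :=
    indicatorConstLp_coeFn
  have h4 : ∀ᵐ s : ℝ, s ∉ Set.Ioo (0 : ℝ) 1 := by
    filter_upwards [h1, h2, h3] with s a b c hs
    unfold piece at b
    rw [a, c, Set.indicator_of_mem hs, phi, if_pos hs.1] at b
    simp at b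
  have h5 : volume (Set.Ioo (0 : ℝ) 1) = 0 := by
    have := measure_eq_zero_iff_ae_notMem.2 h4
    exact this
  simp at h5

/-- The coefficients. -/
noncomputable def cf (k : ℕ) : ℝ := ((Real.sqrt 2)⁻¹) ^ k

theorem cf_sq (k : ℕ) : cf k ^ 2 = (1 / 2 : ℝ) ^ k := by
  unfold cf
  rw [← pow_mul, mul_comm, pow_mul, inv_pow, Real.sq_sqrt (by norm_num)]
  norm_num

theorem cf_succ (k : ℕ) : Real.sqrt 2 * cf (k + 1) = cf k := by
  unfold cf
  rw [pow_succ]
  have : Real.sqrt 2 ≠ 0 := by positivity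
  field_simp

theorem summable_vec : Summable fun k => ‖((cf k : ℝ) : ℂ) • piece k‖ ^ 2 := by
  refine Summable.of_nonneg_of_le (fun k => by positivity) (fun k => ?_)
    ((summable_geometric_of_lt_one (by norm_num) (by norm_num : (1 / 2 : ℝ) < 1)).mul_right (‖chi‖ ^ 2))
  rw [norm_smul, mul_pow, Complex.norm_real, Real.norm_eq_abs, sq_abs, cf_sq]
  exact mul_le_mul_of_nonneg_left (pow_le_pow_left₀ (norm_nonneg _) (norm_piece_le k) 2) (by positivity)

/-- The vector whose orbit tends to zero. -/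
noncomputable def vecE : E := ⟨fun k => ((cf k : ℝ) : ℂ) • piece k, memE summable_vec⟩

theorem vecE_mem : vecE ∈ H := by
  rw [mem_H]
  intro k
  show ((cf k : ℝ) : ℂ) • piece k =
    ((Real.sqrt 2 : ℝ) : ℂ) • Mk k (((cf (k + 1) : ℝ) : ℂ) • piece (k + 1))
  rw [map_smul, smul_smul, ← Complex.ofReal_mul, cf_succ, piece_rel k]

theorem vecE_ne : vecE ≠ 0 := by
  intro h
  have : vecE 0 = 0 := by rw [h]; rfl
  have h2 : ((cf 0 : ℝ) : ℂ) • piece 0 = 0 := this
  rw [smul_eq_zero] at h2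
  rcases h2 with h2 | h2
  · simp [cf] at h2
  · exact piece_ne h2

theorem orbit_zero (x : E) : Tendsto (fun t : ℝ => ‖TE t x‖) atTop (𝓝 0) := by
  have h1 : Tendsto (fun t : ℝ => ∑' k, ‖comp t k (x k)‖ ^ 2) atTop (𝓝 (∑' k : ℕ, (0 : ℝ))) := by
    refine tendsto_tsum_of_dominated_convergence (bound := fun k => ‖x k‖ ^ 2) (summable_sq x) ?_ ?_
    · intro k
      have h2 : Tendsto (fun t : ℝ => Real.exp (-sig k * t)) atTop (𝓝 0) := by
        refine Real.tendsto_exp_atBot.comp ?_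
        exact tendsto_id.const_mul_atTop_of_neg (neg_lt_zero.2 (sig_pos k))
      have h3 := ((h2.mul_const ‖x k‖).pow 2)
      rw [zero_mul, zero_pow two_ne_zero] at h3
      refine h3.congr fun t => ?_
      rw [norm_comp]
    · filter_upwards [eventually_ge_atTop 0] with t ht k
      rw [Real.norm_eq_abs, abs_of_nonneg (by positivity)]
      exact pow_le_pow_left₀ (norm_nonneg _) (norm_comp_le ht k (x k)) 2
  rw [tsum_zero] at h1
  have h5 : Tendsto (fun t : ℝ => ‖TE t x‖ ^ 2) atTop (𝓝 0) := by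
    refine h1.congr' ?_
    filter_upwards [eventually_ge_atTop 0] with t ht
    rw [norm_sq]
    refine tsum_congr fun k => ?_
    rw [TE_apply ht]
  have h6 := h5.sqrt
  simpa [Real.sqrt_sq] using h6

theorem not_below : ¬ ∃ m₁ : ℝ, 0 < m₁ ∧ ∀ t : ℝ, 0 ≤ t → ∀ x : H, m₁ * ‖x‖ ≤ ‖T t x‖ := by
  rintro ⟨m, hm, h⟩
  set x : H := ⟨vecE, vecE_mem⟩ with hx
  have h1 : Tendsto (fun t : ℝ => ‖T t x‖) atTop (𝓝 0) := by
    refine (orbit_zero vecE).congr' ?_
    filter_upwards [eventually_ge_atTop 0] with t ht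
    show _ = ‖((T t x : H) : E)‖
    rw [T_coe ht]
  have h2 : m * ‖x‖ ≤ 0 := by
    refine ge_of_tendsto h1 ?_
    filter_upwards [eventually_ge_atTop 0] with t ht
    exact h t ht x
  have h3 : 0 < ‖x‖ := by
    rw [norm_pos_iff]
    intro h0
    apply vecE_ne
    exact congrArg (Subtype.val) h0
  nlinarith

end Vec

end Pool.Agent.V1194.ResSemi
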