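import Mathlib

/-!
# Frequently hypercyclic vectors with blocks placed along the ruler sequence

`T` is an operator with a right inverse `S` of norm at most `1 / 2`, and `z` is a sequence of vectors
with `T^[j] (z j) = 0`. We place `z (v i)`, `v i` the `2`-adic valuation of `i`, at the time `pos i`, for
all `i` whose binary length is odd. The resulting vector visits every neighbourhood of every `z j` with
positive lower density, but its orbit stays in the unit ball during time intervals of the form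
`[N, (1 + c) N]`.
-/

set_option autoImplicit false

namespace Pool.Agent.V1194.RulerFHC

open Finset Filter Topology

/-- Two-adic valuation. -/
noncomputable def v (i : ℕ) : ℕ := padicValNat 2 i

/-- The time at which the block number `i` is placed. -/
noncomputable def pos (i : ℕ) : ℕ := i + 2 * (∑ l ∈ range i, v l) + v i

theorem pos_gap {i k : ℕ} (h : i < k) : pos i + (k - i) + v i + v k ≤ pos k := by
  unfold pos
  have h1 : (∑ l ∈ range i, v l) + v i ≤ ∑ l ∈ range k, v l := by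
    rw [← Finset.sum_range_succ]
    exact Finset.sum_le_sum_of_subset (Finset.range_subset_range.2 h)
  omega

theorem pos_strictMono : StrictMono pos := by
  intro i k h
  have := pos_gap h
  omega

theorem le_pos (i : ℕ) : i + v i ≤ pos i := by unfold pos; omega

theorem sum_v (i : ℕ) : ∑ l ∈ range (i + 1), v l = padicValNat 2 (i.factorial) := by
  induction i with
  | zero => simp [v]
  | succ i ih =>
    rw [Finset.sum_range_succ, ih, Nat.factorial_succ, padicValNat.mul (by omega) (Nat.factorial_ne_zero _),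
      add_comm]
    rfl

theorem sum_v_le (i : ℕ) : ∑ l ∈ range (i + 1), v l ≤ i := by
  rw [sum_v]
  have := sub_one_mul_padicValNat_factorial (p := 2) i
  omega

theorem pos_le (i : ℕ) : pos i ≤ 3 * i := by
  unfold pos
  have h := sum_v_le i
  rw [Finset.sum_range_succ] at h
  omega

/-- The active indices. -/
def Act (i : ℕ) : Prop := i ≠ 0 ∧ Even (Nat.log 2 i)

theorem not_act {r i : ℕ} (h1 : 2 * 4 ^ r ≤ i) (h2 : i < 4 ^ (r + 1)) : ¬ Act i := by
  rintro ⟨h0, he⟩
  have : Nat.log 2 i = 2 * r + 1 := by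
    rw [Nat.log_eq_iff (by left; omega)]
    constructor
    · rw [pow_succ, pow_mul]; norm_num; omega
    · have : (2 : ℕ) ^ (2 * r + 1 + 1) = 4 ^ (r + 1) := by
        rw [show 2 * r + 1 + 1 = 2 * (r + 1) by ring, pow_mul]; norm_num
      omega
  rw [this] at he
  exact (Nat.not_even_iff_odd.2 ⟨r, rfl⟩) he

theorem act_of {r i : ℕ} (h1 : 4 ^ r ≤ i) (h2 : i < 2 * 4 ^ r) : Act i := by
  have h0 : 0 < 4 ^ r := by positivity
  refine ⟨by omega, ?_⟩
  have : Nat.log 2 i = 2 * r := by
    rw [Nat.log_eq_iff (by right; constructor <;> omega)]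
    constructor
    · rw [pow_mul]; norm_num; omega
    · rw [pow_succ, pow_mul]; norm_num; omega
  rw [this]
  exact even_two_mul r

section Vector

variable {X : Type*} [NormedAddCommGroup X] [NormedSpace ℝ X] [CompleteSpace X]
  (T S : X →L[ℝ] X) (z : ℕ → X)

open Classical in
/-- The block number `i`. -/
noncomputable def term (i : ℕ) : X := if Act i then (⇑S)^[pos i] (z (v i)) else 0

/-- The vector. -/
noncomputable def vec : X := ∑' i, term S z i

variable {T S z}

theorem iter_norm (hS : ∀ x, ‖S x‖ ≤ ‖x‖ / 2) (n : ℕ) (x : X) :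
    ‖(⇑S)^[n] x‖ ≤ ‖x‖ * (1 / 2) ^ n := by
  induction n with
  | zero => simp
  | succ n ih =>
    rw [Function.iterate_succ_apply']
    calc ‖S ((⇑S)^[n] x)‖ ≤ ‖(⇑S)^[n] x‖ / 2 := hS _
      _ ≤ (‖x‖ * (1 / 2) ^ n) / 2 := by linarith
      _ = ‖x‖ * (1 / 2) ^ (n + 1) := by rw [pow_succ]; ring

theorem iter_TS (hTS : ∀ x, T (S x) = x) {n m : ℕ} (h : n ≤ m) (x : X) :
    (⇑T)^[n] ((⇑S)^[m] x) = (⇑S)^[m - n] x := by
  obtain ⟨d, rfl⟩ := Nat.exists_eq_add_of_le h
  rw [Function.iterate_add_apply, (Function.LeftInverse.iterate hTS n), Nat.add_sub_cancel_left]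

theorem iter_TS' (hTS : ∀ x, T (S x) = x) {n m : ℕ} (h : m ≤ n) (x : X) :
    (⇑T)^[n] ((⇑S)^[m] x) = (⇑T)^[n - m] x := by
  obtain ⟨d, rfl⟩ := Nat.exists_eq_add_of_le h
  rw [show m + d = d + m by ring, Function.iterate_add_apply, (Function.LeftInverse.iterate hTS m)]
  simp

theorem iter_zero_of_le (hz : ∀ j, (⇑T)^[j] (z j) = 0) {j n : ℕ} (h : j ≤ n) :
    (⇑T)^[n] (z j) = 0 := by
  obtain ⟨d, rfl⟩ := Nat.exists_eq_add_of_le h
  rw [add_comm, Function.iterate_add_apply, hz]
  exact iterate_map_zero T d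

/-- The norm of a future block at time `N ≤ pos i`. -/
theorem norm_iter_term_le (hTS : ∀ x, T (S x) = x) (hS : ∀ x, ‖S x‖ ≤ ‖x‖ / 2)
    (hz2 : ∀ j, ‖z j‖ ≤ 2 ^ j) {N i d : ℕ} (h : N + d + v i ≤ pos i) :
    ‖(⇑T)^[N] (term S z i)‖ ≤ (1 / 2) ^ d := by
  unfold term
  split_ifs with hi
  · rw [iter_TS hTS (by omega)]
    refine (iter_norm hS _ _).trans ?_
    calc ‖z (v i)‖ * (1 / 2) ^ (pos i - N) ≤ 2 ^ (v i) * (1 / 2) ^ (d + v i) := by
          gcongr ?_ * ?_
          · exact hz2 _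
          · exact pow_le_pow_of_le_one (by norm_num) (by norm_num) (by omega)
      _ = (1 / 2) ^ d := by
          rw [pow_add]
          have : (2 : ℝ) ^ (v i) * (1 / 2) ^ (v i) = 1 := by rw [← mul_pow]; norm_num
          linear_combination (1 / 2 : ℝ) ^ d * this
  · rw [iterate_map_zero T N, norm_zero]; positivity

theorem iter_term_eq_zero (hTS : ∀ x, T (S x) = x) (hz : ∀ j, (⇑T)^[j] (z j) = 0)
    {N i : ℕ} (h : pos i + v i ≤ N) : (⇑T)^[N] (term S z i) = 0 := by
  unfold term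
  split_ifs with hi
  · rw [iter_TS' hTS (by omega)]
    exact iter_zero_of_le hz (by omega)
  · exact iterate_map_zero T N

theorem summable_term (hTS : ∀ x, T (S x) = x) (hS : ∀ x, ‖S x‖ ≤ ‖x‖ / 2)
    (hz2 : ∀ j, ‖z j‖ ≤ 2 ^ j) : Summable (term S z) := by
  refine Summable.of_norm_bounded (g := fun i : ℕ => (1 / 2 : ℝ) ^ i)
    (summable_geometric_of_lt_one (by norm_num) (by norm_num)) fun i => ?_
  have := norm_iter_term_le (T := T) (N := 0) (d := i) (i := i) hTS hS hz2 (by have := le_pos i; omega)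
  simpa using this

/-- Splitting the orbit into the past and the future. -/
theorem norm_iter_vec_sub_le (hTS : ∀ x, T (S x) = x) (hS : ∀ x, ‖S x‖ ≤ ‖x‖ / 2)
    (hz2 : ∀ j, ‖z j‖ ≤ 2 ^ j) {N k : ℕ} {c : ℕ}
    (h : ∀ i, k ≤ i → N + c + (i - k + 1) + v i ≤ pos i) :
    ‖(⇑T)^[N] (vec S z) - ∑ i ∈ range k, (⇑T)^[N] (term S z i)‖ ≤ (1 / 2) ^ c := by
  have hsum := summable_term (T := T) hTS hS hz2
  have hmap : (⇑T)^[N] (vec S z) = ∑' i, (⇑T)^[N] (term S z i) := by
    have h1 := (T ^ N).map_tsum hsum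
    simpa [vec, ContinuousLinearMap.coe_pow] using h1
  have hsum' : Summable fun i => (⇑T)^[N] (term S z i) := by
    have h1 := (T ^ N).summable hsum
    simpa [ContinuousLinearMap.coe_pow] using h1
  rw [hmap, ← hsum'.sum_add_tsum_nat_add k, add_sub_cancel_left]
  have hb : ∀ i, ‖(⇑T)^[N] (term S z (i + k))‖ ≤ (1 / 2) ^ c * (1 / 2) * (1 / 2) ^ i := by
    intro i
    have h2 := h (i + k) (by omega)
    have h3 := norm_iter_term_le (T := T) (N := N) (d := c + 1 + i) (i := i + k) hTS hS hz2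
      (by omega)
    refine h3.trans (le_of_eq ?_)
    rw [pow_add, pow_add]; ring
  have hg : HasSum (fun i : ℕ => (1 / 2 : ℝ) ^ c * (1 / 2) * (1 / 2) ^ i) ((1 / 2) ^ c * (1 / 2) * 2) := by
    have := hasSum_geometric_two.mul_left ((1 / 2 : ℝ) ^ c * (1 / 2))
    simpa using this
  have := tsum_of_norm_bounded hg hb
  refine this.trans (le_of_eq (by ring))

/-- Visits to the blocks. -/
theorem visit (hTS : ∀ x, T (S x) = x) (hS : ∀ x, ‖S x‖ ≤ ‖x‖ / 2)
    (hz : ∀ j, (⇑T)^[j] (z j) = 0) (hz2 : ∀ j, ‖z j‖ ≤ 2 ^ j) {k : ℕ} (hk : Act k) :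
    ‖(⇑T)^[pos k] (vec S z) - z (v k)‖ ≤ (1 / 2) ^ (v k) := by
  have h := norm_iter_vec_sub_le (N := pos k) (k := k + 1) (c := v k) hTS hS hz2 ?_
  · rw [Finset.sum_range_succ, Finset.sum_eq_zero, zero_add] at h
    · have h2 : (⇑T)^[pos k] (term S z k) = z (v k) := by
        unfold term
        rw [if_pos hk, iter_TS hTS le_rfl]
        simp
      rwa [h2] at h
    · intro i hi
      refine iter_term_eq_zero hTS hz ?_
      have := pos_gap (Finset.mem_range.1 hi)
      omega
  · intro i hi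
    have := pos_gap (i := k) (k := i) (by omega)
    omega

/-- During long time intervals the orbit stays in the unit ball. -/
theorem gap (hTS : ∀ x, T (S x) = x) (hS : ∀ x, ‖S x‖ ≤ ‖x‖ / 2)
    (hz : ∀ j, (⇑T)^[j] (z j) = 0) (hz2 : ∀ j, ‖z j‖ ≤ 2 ^ j) {r N : ℕ}
    (h1 : pos (2 * 4 ^ r) ≤ N) (h2 : N ≤ pos (4 ^ (r + 1) - 1)) :
    ‖(⇑T)^[N] (vec S z)‖ ≤ 1 := by
  have h4 : 0 < 4 ^ r := by positivity
  have h := norm_iter_vec_sub_le (N := N) (k := 4 ^ (r + 1)) (c := 0) hTS hS hz2 ?_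
  · rw [Finset.sum_eq_zero, sub_zero, pow_zero] at h
    · exact h
    · intro i hi
      rcases lt_or_ge i (2 * 4 ^ r) with h5 | h5
      · refine iter_term_eq_zero hTS hz ?_
        have := pos_gap h5
        omega
      · unfold term
        rw [if_neg (not_act h5 (Finset.mem_range.1 hi))]
        exact iterate_map_zero T N
  · intro i hi
    have := pos_gap (i := 4 ^ (r + 1) - 1) (k := i) (by rw [pow_succ] at hi ⊢; omega)
    rw [pow_succ] at *
    omega

end Vector

end Pool.Agent.V1194.RulerFHC
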