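import Mathlib

/-!
# Structure of complex symmetric matrices that are truncated Toeplitz operators

`T` is a matrix with `1 - T Tᴴ = k kᴴ` and with eigenvalues in the open unit disc. A symmetric matrix
`M` with `M - T M Tᴴ = u kᴴ + k vᴴ` and without orthogonal eigenvectors forces `T` to be symmetric,
and the commutators of `T` with `M` and `Mᴴ` are antisymmetric of rank two.
-/

set_option autoImplicit false

namespace Pool.Agent.V1194.TTOAlg

open Matrix Finset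
open scoped ComplexOrder

variable {n : ℕ}

/-- An invariant nonzero subspace contains an eigenvector. -/
theorem exists_eigenvector {V : Type*} [AddCommGroup V] [Module ℂ V] [FiniteDimensional ℂ V]
    (f : V →ₗ[ℂ] V) (W : Submodule ℂ V) (hW : ∀ x ∈ W, f x ∈ W) (hne : ∃ x ∈ W, x ≠ 0) :
    ∃ x ∈ W, x ≠ 0 ∧ ∃ a : ℂ, f x = a • x := by
  obtain ⟨x0, hx0, hx0'⟩ := hne
  have : Nontrivial W := ⟨⟨⟨x0, hx0⟩, 0, fun h => hx0' (by simpa using congrArg Subtype.val h)⟩⟩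
  obtain ⟨c, hc⟩ := Module.End.exists_eigenvalue (f.restrict hW)
  obtain ⟨x, hx⟩ := hc.exists_hasEigenvector
  refine ⟨x, x.2, fun h => hx.2 (Subtype.ext h), c, ?_⟩
  have := congrArg Subtype.val hx.apply_eq_smul
  simpa using this

/-- The structure of a compressed shift. -/
structure Model (T : Matrix (Fin n) (Fin n) ℂ) (k : Fin n → ℂ) : Prop where
  defect : 1 - T * Tᴴ = vecMulVec k (star k)
  spec : ∀ μ : ℂ, ∀ x : Fin n → ℂ, x ≠ 0 → T *ᵥ x = μ • x → ‖μ‖ < 1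

theorem norm_sq_nonneg' (x : Fin n → ℂ) (h : star x ⬝ᵥ x = 0) : x = 0 :=
  dotProduct_star_self_eq_zero.1 h

theorem dot_mulVec (A : Matrix (Fin n) (Fin n) ℂ) (x y : Fin n → ℂ) :
    star (A *ᵥ x) ⬝ᵥ y = star x ⬝ᵥ (Aᴴ *ᵥ y) := by
  rw [star_mulVec, ← dotProduct_mulVec]

/-- Controllability. -/
theorem Model.control {T : Matrix (Fin n) (Fin n) ℂ} {k : Fin n → ℂ} (h : Model T k)
    {y : Fin n → ℂ} (hy : ∀ j : ℕ, star ((T ^ j) *ᵥ k) ⬝ᵥ y = 0) : y = 0 := by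
  by_contra hy0
  let W : Submodule ℂ (Fin n → ℂ) :=
    { carrier := {y | ∀ j : ℕ, star ((T ^ j) *ᵥ k) ⬝ᵥ y = 0}
      zero_mem' := fun j => by simp
      add_mem' := fun {a b} ha hb j => by rw [dotProduct_add, ha j, hb j, add_zero]
      smul_mem' := fun c a ha j => by rw [dotProduct_smul, ha j, smul_zero] }
  have hWinv : ∀ x ∈ W, (Tᴴ).mulVecLin x ∈ W := by
    intro x hx j
    have h1 := hx (j + 1)
    rw [pow_succ', ← mulVec_mulVec, dot_mulVec] at h1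
    simpa using h1
  obtain ⟨x, hxW, hx0, a, hxa⟩ := exists_eigenvector (Tᴴ).mulVecLin W hWinv ⟨y, hy, hy0⟩
  rw [mulVecLin_apply] at hxa
  have hk : star k ⬝ᵥ x = 0 := by simpa using hxW 0
  have h2 : T *ᵥ (Tᴴ *ᵥ x) = x := by
    have h3 : (1 - T * Tᴴ) *ᵥ x = 0 := by
      rw [h.defect, vecMulVec_mulVec]
      simp [hk]
    rw [sub_mulVec, one_mulVec, ← mulVec_mulVec] at h3
    exact (sub_eq_zero.1 h3).symm
  have h4 : star a * a = 1 := by
    have h5 : star (Tᴴ *ᵥ x) ⬝ᵥ (Tᴴ *ᵥ x) = star x ⬝ᵥ x := by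
      rw [dot_mulVec, conjTranspose_conjTranspose, h2]
    rw [hxa, star_smul, smul_dotProduct, dotProduct_smul, smul_eq_mul, smul_eq_mul, ← mul_assoc] at h5
    have h6 : star x ⬝ᵥ x ≠ 0 := fun h => hx0 (norm_sq_nonneg' x h)
    exact mul_right_cancel₀ h6 (by rw [h5, one_mul])
  have ha0 : a ≠ 0 := by rintro rfl; simp at h4
  have h7 : T *ᵥ x = a⁻¹ • x := by
    rw [hxa, mulVec_smul] at h2
    calc T *ᵥ x = a⁻¹ • (a • T *ᵥ x) := by rw [smul_smul, inv_mul_cancel₀ ha0, one_smul]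
      _ = a⁻¹ • x := by rw [h2]
  have h8 := h.spec _ x hx0 h7
  have h9 : ‖a‖ * ‖a‖ = 1 := by
    have := congrArg norm h4
    simpa using this
  have h10 : ‖a‖ = 1 := by nlinarith [norm_nonneg a]
  rw [norm_inv, h10] at h8
  norm_num at h8

/-- The Krylov matrix, with columns `T ^ j k`. -/
def Kry (T : Matrix (Fin n) (Fin n) ℂ) (k : Fin n → ℂ) : Matrix (Fin n) (Fin n) ℂ :=
  Matrix.of fun i j => ((T ^ (j : ℕ)) *ᵥ k) i

theorem kry_col (T : Matrix (Fin n) (Fin n) ℂ) (k : Fin n → ℂ) (j : Fin n) :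
    (Kry T k).col j = (T ^ (j : ℕ)) *ᵥ k := rfl

theorem mul_kry_eq_zero {A T : Matrix (Fin n) (Fin n) ℂ} {k : Fin n → ℂ}
    (hK : IsUnit (Kry T k)) (h : ∀ j : ℕ, A *ᵥ ((T ^ j) *ᵥ k) = 0) : A = 0 := by
  have h1 : A * Kry T k = 0 := by
    ext i j
    have := congrFun (h j) i
    simpa [Matrix.mul_apply, mulVec, dotProduct, Kry] using this
  exact (hK.mul_left_eq_zero).1 h1

/-- Cayley-Hamilton for vectors. -/
theorem cayley (T : Matrix (Fin n) (Fin n) ℂ) (j : ℕ) :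
    T ^ j = ∑ i ∈ range n, ((Polynomial.X ^ j %ₘ T.charpoly).coeff i) • T ^ i := by
  set r := (Polynomial.X ^ j : Polynomial ℂ) %ₘ T.charpoly with hr
  have h1 : Polynomial.aeval T r = T ^ j := by
    rw [hr, Polynomial.aeval_modByMonic_eq_self_of_root (Matrix.aeval_self_charpoly T)]
    simp
  rcases Nat.eq_zero_or_pos n with h0 | h0
  · subst h0
    exact Subsingleton.elim _ _
  have h2 : r.natDegree < n := by
    have h3 : T.charpoly.natDegree = n := by simp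
    have h4 : T.charpoly ≠ 1 := by
      intro h
      rw [h] at h3
      simp at h3
      omega
    have h5 := Polynomial.natDegree_modByMonic_lt (Polynomial.X ^ j : Polynomial ℂ)
      (Matrix.charpoly_monic T) h4
    rw [← hr, h3] at h5
    exact h5
  rw [← h1, Polynomial.aeval_eq_sum_range' h2]

theorem Model.isUnit_kry {T : Matrix (Fin n) (Fin n) ℂ} {k : Fin n → ℂ} (h : Model T k) :
    IsUnit (Kry T k) := by
  rw [Matrix.isUnit_iff_isUnit_det, isUnit_iff_ne_zero]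
  intro hdet
  obtain ⟨y, hy0, hy⟩ := Matrix.exists_vecMul_eq_zero_iff.2 hdet
  have h1 : ∀ j : ℕ, y ⬝ᵥ ((T ^ j) *ᵥ k) = 0 := by
    intro j
    rw [cayley T j, Matrix.sum_mulVec, dotProduct_sum]
    refine Finset.sum_eq_zero fun i hi => ?_
    rw [smul_mulVec, dotProduct_smul]
    have h2 := congrFun hy ⟨i, Finset.mem_range.1 hi⟩
    have h3 : y ⬝ᵥ ((T ^ i) *ᵥ k) = 0 := by
      simpa [vecMul, Kry] using h2
    rw [h3, smul_zero]
  have h2 : star y = 0 := by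
    refine h.control fun j => ?_
    rw [star_dotProduct_star, h1 j, star_zero]
  exact hy0 (by simpa using h2)

theorem exists_ktilde {T : Matrix (Fin n) (Fin n) ℂ} {k : Fin n → ℂ}
    (h : 1 - T * Tᴴ = vecMulVec k (star k)) :
    ∃ l : Fin n → ℂ, 1 - Tᴴ * T = vecMulVec l (star l) := by
  have hA : (T * Tᴴ).IsHermitian := isHermitian_mul_conjTranspose_self T
  have hB : (Tᴴ * T).IsHermitian := isHermitian_conjTranspose_mul_self T
  have he : hA.eigenvalues = hB.eigenvalues := by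
    rw [Matrix.IsHermitian.eigenvalues_eq_eigenvalues_iff, Matrix.charpoly_mul_comm]
  have h1 := hA.spectral_theorem
  have h2 := hB.spectral_theorem
  rw [Unitary.conjStarAlgAut_apply] at h1 h2
  rw [← he] at h2
  set U1 := hA.eigenvectorUnitary
  set U2 := hB.eigenvectorUnitary
  set D := diagonal (RCLike.ofReal ∘ hA.eigenvalues : Fin n → ℂ)
  have e1 : (U1 : Matrix (Fin n) (Fin n) ℂ)ᴴ * U1 = 1 := Unitary.coe_star_mul_self U1
  have e2 : (U2 : Matrix (Fin n) (Fin n) ℂ) * (U2 : Matrix (Fin n) (Fin n) ℂ)ᴴ = 1 :=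
    Unitary.coe_mul_star_self U2
  have h1' : T * Tᴴ = U1 * D * (U1 : Matrix (Fin n) (Fin n) ℂ)ᴴ := h1
  have h2' : Tᴴ * T = U2 * D * (U2 : Matrix (Fin n) (Fin n) ℂ)ᴴ := h2
  refine ⟨((U2 : Matrix (Fin n) (Fin n) ℂ) * (U1 : Matrix (Fin n) (Fin n) ℂ)ᴴ) *ᵥ k, ?_⟩
  have h3 : 1 - Tᴴ * T = ((U2 : Matrix (Fin n) (Fin n) ℂ) * (U1 : Matrix (Fin n) (Fin n) ℂ)ᴴ) *
      (1 - T * Tᴴ) * ((U2 : Matrix (Fin n) (Fin n) ℂ) * (U1 : Matrix (Fin n) (Fin n) ℂ)ᴴ)ᴴ := by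
    rw [h1', h2', conjTranspose_mul, conjTranspose_conjTranspose]
    have e3 : (U2 : Matrix (Fin n) (Fin n) ℂ) * (U1 : Matrix (Fin n) (Fin n) ℂ)ᴴ *
        (1 - U1 * D * (U1 : Matrix (Fin n) (Fin n) ℂ)ᴴ) *
        (U1 * (U2 : Matrix (Fin n) (Fin n) ℂ)ᴴ) =
        U2 * ((U1 : Matrix (Fin n) (Fin n) ℂ)ᴴ * U1) * (U2 : Matrix (Fin n) (Fin n) ℂ)ᴴ -
        U2 * ((U1 : Matrix (Fin n) (Fin n) ℂ)ᴴ * U1) * D * ((U1 : Matrix (Fin n) (Fin n) ℂ)ᴴ * U1) *
          (U2 : Matrix (Fin n) (Fin n) ℂ)ᴴ := by noncomm_ring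
    rw [e3, e1, mul_one, mul_one, e2]
  rw [h3, h, mul_vecMulVec, vecMulVec_mul, star_mulVec]

/-- Equality of Gram matrices. -/
theorem gram_eq {T T' : Matrix (Fin n) (Fin n) ℂ} {k k' l l' : Fin n → ℂ}
    (hl : 1 - Tᴴ * T = vecMulVec l (star l)) (hl' : 1 - T'ᴴ * T' = vecMulVec l' (star l'))
    (h1 : ∀ i : ℕ, star l ⬝ᵥ ((T ^ i) *ᵥ k) = star l' ⬝ᵥ ((T' ^ i) *ᵥ k'))
    (h2 : ∀ i : ℕ, star k ⬝ᵥ ((T ^ i) *ᵥ k) = star k' ⬝ᵥ ((T' ^ i) *ᵥ k')) (i j : ℕ) :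
    star ((T ^ j) *ᵥ k) ⬝ᵥ ((T ^ i) *ᵥ k) = star ((T' ^ j) *ᵥ k') ⬝ᵥ ((T' ^ i) *ᵥ k') := by
  induction j generalizing i with
  | zero => simpa using h2 i
  | succ j ih =>
    cases i with
    | zero =>
      have := congrArg star (h2 (j + 1))
      rw [← star_dotProduct, ← star_dotProduct] at this
      simpa using this
    | succ i =>
      have key : ∀ (A : Matrix (Fin n) (Fin n) ℂ) (x y : Fin n → ℂ), 1 - Aᴴ * A = vecMulVec x (star x) →
          star ((A ^ (j + 1)) *ᵥ y) ⬝ᵥ ((A ^ (i + 1)) *ᵥ y) =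
            star ((A ^ j) *ᵥ y) ⬝ᵥ ((A ^ i) *ᵥ y) -
              (star (star x ⬝ᵥ ((A ^ j) *ᵥ y))) * (star x ⬝ᵥ ((A ^ i) *ᵥ y)) := by
        intro A x y hx
        have e1 : Aᴴ * A = 1 - vecMulVec x (star x) := by rw [← hx]; abel
        rw [pow_succ', pow_succ', ← mulVec_mulVec, ← mulVec_mulVec, dot_mulVec, mulVec_mulVec, e1,
          sub_mulVec, one_mulVec, vecMulVec_mulVec, dotProduct_sub]
        congr 1
        rw [← star_dotProduct]
        simp [dotProduct_smul, mul_comm]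
      rw [key T l k hl, key T' l' k' hl', ih, h1, h1]

theorem trace_eq (T : Matrix (Fin n) (Fin n) ℂ) {k l : Fin n → ℂ}
    (hk : 1 - T * Tᴴ = vecMulVec k (star k)) (hl : 1 - Tᴴ * T = vecMulVec l (star l)) (i : ℕ) :
    star k ⬝ᵥ ((T ^ i) *ᵥ k) = star l ⬝ᵥ ((T ^ i) *ᵥ l) := by
  have h1 : star k ⬝ᵥ ((T ^ i) *ᵥ k) = trace (T ^ i * (1 - T * Tᴴ)) := by
    rw [hk, mul_vecMulVec, trace_vecMulVec, dotProduct_comm]
  have h2 : star l ⬝ᵥ ((T ^ i) *ᵥ l) = trace (T ^ i * (1 - Tᴴ * T)) := by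
    rw [hl, mul_vecMulVec, trace_vecMulVec, dotProduct_comm]
  rw [h1, h2, mul_sub, mul_sub, trace_sub, trace_sub]
  congr 1
  rw [← mul_assoc, ← mul_assoc, trace_mul_comm (T ^ i * Tᴴ) T, ← mul_assoc, ← pow_succ, ← pow_succ']

/-- The unitary that intertwines `T` with its transpose. -/
theorem Model.exists_unitary {T : Matrix (Fin n) (Fin n) ℂ} {k : Fin n → ℂ} (h : Model T k) :
    ∃ V : Matrix (Fin n) (Fin n) ℂ, Vᴴ * V = 1 ∧ V * T = Tᵀ * V := by
  obtain ⟨l, hl⟩ := exists_ktilde h.defect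
  have hT1 : 1 - Tᵀ * (Tᵀ)ᴴ = vecMulVec (star l) (star (star l)) := by
    have := congrArg Matrix.transpose hl
    rw [transpose_sub, transpose_one, transpose_mul] at this
    rw [star_star]
    rw [show (Tᵀ)ᴴ = (Tᴴ)ᵀ from rfl, this]
    ext i j
    simp [vecMulVec_apply, mul_comm]
  have hT2 : 1 - (Tᵀ)ᴴ * Tᵀ = vecMulVec (star k) (star (star k)) := by
    have := congrArg Matrix.transpose h.defect
    rw [transpose_sub, transpose_one, transpose_mul] at this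
    rw [star_star]
    rw [show (Tᵀ)ᴴ = (Tᴴ)ᵀ from rfl, this]
    ext i j
    simp [vecMulVec_apply, mul_comm]
  have tr : ∀ (x y : Fin n → ℂ) (i : ℕ), x ⬝ᵥ ((Tᵀ ^ i) *ᵥ y) = y ⬝ᵥ ((T ^ i) *ᵥ x) := by
    intro x y i
    rw [← transpose_pow, mulVec_transpose, dotProduct_comm, ← dotProduct_mulVec]
  have hg := gram_eq (T := T) (T' := Tᵀ) (k := k) (k' := star l) hl hT2
    (fun i => by
      rw [star_star, tr])
    (fun i => by
      rw [star_star, tr, trace_eq T h.defect hl])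
  have hK := h.isUnit_kry
  set K := Kry T k with hKdef
  set K' := Kry Tᵀ (star l) with hK'def
  have hgram : K'ᴴ * K' = Kᴴ * K := by
    ext a b
    have := hg b a
    simp only [hKdef, hK'def, Matrix.mul_apply, conjTranspose_apply, Kry, Matrix.of_apply]
    simpa [dotProduct] using this.symm
  have hKdet : IsUnit K.det := (Matrix.isUnit_iff_isUnit_det _).1 hK
  have hKK : K * K⁻¹ = 1 := Matrix.mul_nonsing_inv _ hKdet
  have hKK' : K⁻¹ * K = 1 := Matrix.nonsing_inv_mul _ hKdet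
  refine ⟨K' * K⁻¹, ?_, ?_⟩
  · rw [conjTranspose_mul]
    calc (K⁻¹)ᴴ * K'ᴴ * (K' * K⁻¹) = (K⁻¹)ᴴ * (K'ᴴ * K') * K⁻¹ := by noncomm_ring
      _ = (K⁻¹)ᴴ * (Kᴴ * K) * K⁻¹ := by rw [hgram]
      _ = (K * K⁻¹)ᴴ * (K * K⁻¹) := by rw [conjTranspose_mul]; noncomm_ring
      _ = 1 := by rw [hKK]; simp
  · have hcol : ∀ j : ℕ, (K' * K⁻¹) *ᵥ ((T ^ j) *ᵥ k) = (Tᵀ ^ j) *ᵥ (star l) := by
      have h1 : ∀ j : ℕ, j < n → (K' * K⁻¹) *ᵥ ((T ^ j) *ᵥ k) = (Tᵀ ^ j) *ᵥ (star l) := by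
        intro j hj
        have e1 : (K' * K⁻¹) * K = K' := by rw [mul_assoc, hKK', mul_one]
        ext i
        have := congrFun (congrFun e1 i) ⟨j, hj⟩
        rw [Matrix.mul_apply] at this
        simpa [hKdef, hK'def, Kry, mulVec, dotProduct] using this
      intro j
      have hch : (Tᵀ).charpoly = T.charpoly := Matrix.charpoly_transpose T
      rw [cayley T j, cayley Tᵀ j, hch, Matrix.sum_mulVec, Matrix.sum_mulVec, Matrix.mulVec_sum]
      refine Finset.sum_congr rfl fun i hi => ?_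
      rw [smul_mulVec, smul_mulVec, mulVec_smul, h1 i (Finset.mem_range.1 hi)]
    rw [← sub_eq_zero]
    refine mul_kry_eq_zero hK fun j => ?_
    rw [sub_mulVec, ← mulVec_mulVec, mulVec_mulVec _ T, ← pow_succ', hcol, ← mulVec_mulVec _ (Tᵀ), hcol,
      mulVec_mulVec, ← pow_succ', sub_self]

/-- Uniqueness in the displacement equation. -/
theorem Model.stein {T : Matrix (Fin n) (Fin n) ℂ} {k : Fin n → ℂ} (h : Model T k)
    {Z : Matrix (Fin n) (Fin n) ℂ} (hZ : T * Z * Tᴴ = Z) : Z = 0 := by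
  by_contra hZ0
  let W : Submodule ℂ (Matrix (Fin n) (Fin n) ℂ) :=
    { carrier := {Z | T * Z * Tᴴ = Z}
      zero_mem' := by simp
      add_mem' := fun {a b} ha hb => by
        simp only [Set.mem_setOf_eq] at *
        rw [mul_add, add_mul, ha, hb]
      smul_mem' := fun c a ha => by
        simp only [Set.mem_setOf_eq] at *
        rw [mul_smul_comm, smul_mul_assoc, ha] }
  have hWinv : ∀ x ∈ W, (LinearMap.mulLeft ℂ T) x ∈ W := by
    intro x hx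
    have hx' : T * x * Tᴴ = x := hx
    show T * (T * x) * Tᴴ = T * x
    calc T * (T * x) * Tᴴ = T * (T * x * Tᴴ) := by noncomm_ring
      _ = T * x := by rw [hx']
  obtain ⟨X, hXW, hX0, a, hXa⟩ := exists_eigenvector (LinearMap.mulLeft ℂ T) W hWinv ⟨Z, hZ, hZ0⟩
  rw [LinearMap.mulLeft_apply] at hXa
  have hX : T * X * Tᴴ = X := hXW
  have col : ∀ (Y : Matrix (Fin n) (Fin n) ℂ) (c : ℂ), Y ≠ 0 → T * Y = c • Y → ‖c‖ < 1 := by
    intro Y c hY hYc
    obtain ⟨j, hj⟩ : ∃ j, (fun i => Y i j) ≠ 0 := by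
      by_contra hcon
      push Not at hcon
      exact hY (by ext i j; exact congrFun (hcon j) i)
    refine h.spec c (fun i => Y i j) hj ?_
    ext i
    have := congrFun (congrFun hYc i) j
    simpa [Matrix.mul_apply, mulVec, dotProduct] using this
  have ha := col X a hX0 hXa
  have h1 : a • (X * Tᴴ) = X := by rw [← smul_mul_assoc, ← hXa, hX]
  have ha0 : a ≠ 0 := by
    rintro rfl
    rw [zero_smul] at h1
    exact hX0 h1.symm
  have h2 : T * Xᴴ = (star a)⁻¹ • Xᴴ := by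
    have h3 : star a • (T * Xᴴ) = Xᴴ := by
      have := congrArg conjTranspose h1
      rwa [conjTranspose_smul, conjTranspose_mul, conjTranspose_conjTranspose] at this
    calc T * Xᴴ = (star a)⁻¹ • (star a • (T * Xᴴ)) := by
          rw [smul_smul, inv_mul_cancel₀ (star_ne_zero.2 ha0), one_smul]
      _ = _ := by rw [h3]
  have h4 := col Xᴴ _ (fun h => hX0 (conjTranspose_eq_zero.1 h)) h2
  rw [norm_inv, norm_star] at h4
  have h5 : 0 < ‖a‖ := norm_pos_iff.2 ha0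
  have h6 : 1 < ‖a‖⁻¹ := (one_lt_inv₀ h5).2 ha
  linarith

/-- Every vector is a polynomial in `T` applied to `k`. -/
theorem Model.exists_comb {T : Matrix (Fin n) (Fin n) ℂ} {k : Fin n → ℂ} (h : Model T k)
    (u : Fin n → ℂ) : ∃ c : Fin n → ℂ, (∑ j : Fin n, c j • T ^ (j : ℕ)) *ᵥ k = u := by
  have hKdet : IsUnit (Kry T k).det := (Matrix.isUnit_iff_isUnit_det _).1 h.isUnit_kry
  refine ⟨(Kry T k)⁻¹ *ᵥ u, ?_⟩
  have h1 : ∀ c : Fin n → ℂ, (∑ j : Fin n, c j • T ^ (j : ℕ)) *ᵥ k = Kry T k *ᵥ c := by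
    intro c
    rw [Matrix.sum_mulVec]
    ext i
    simp [Kry, mulVec, dotProduct, Finset.sum_apply, smul_mulVec, Finset.mul_sum, mul_comm]
  rw [h1, mulVec_mulVec, Matrix.mul_nonsing_inv _ hKdet, one_mulVec]

theorem comm_comb (T : Matrix (Fin n) (Fin n) ℂ) (c : Fin n → ℂ) :
    T * (∑ j : Fin n, c j • T ^ (j : ℕ)) = (∑ j : Fin n, c j • T ^ (j : ℕ)) * T := by
  rw [Finset.mul_sum, Finset.sum_mul]
  refine Finset.sum_congr rfl fun j _ => ?_
  rw [mul_smul_comm, smul_mul_assoc, ← pow_succ, ← pow_succ']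

/-- Solutions of the displacement equation are sums of a polynomial in `T` and one in `Tᴴ`. -/
theorem Model.repr {T : Matrix (Fin n) (Fin n) ℂ} {k : Fin n → ℂ} (h : Model T k)
    {M : Matrix (Fin n) (Fin n) ℂ} {u v : Fin n → ℂ}
    (hM : M - T * M * Tᴴ = vecMulVec u (star k) + vecMulVec k (star v)) :
    ∃ c d : Fin n → ℂ, M = (∑ j : Fin n, c j • T ^ (j : ℕ)) + (∑ j : Fin n, d j • T ^ (j : ℕ))ᴴ := by
  obtain ⟨c, hc⟩ := h.exists_comb u
  obtain ⟨d, hd⟩ := h.exists_comb v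
  refine ⟨c, d, ?_⟩
  have hP := comm_comb T c
  have hQ := comm_comb T d
  set P := ∑ j : Fin n, c j • T ^ (j : ℕ)
  set Q := ∑ j : Fin n, d j • T ^ (j : ℕ)
  have h1 : (P + Qᴴ) - T * (P + Qᴴ) * Tᴴ = vecMulVec u (star k) + vecMulVec k (star v) := by
    have e1 : T * (P + Qᴴ) * Tᴴ = P * (T * Tᴴ) + (T * Tᴴ) * Qᴴ := by
      have e2 : Qᴴ * Tᴴ = Tᴴ * Qᴴ := by rw [← conjTranspose_mul, ← conjTranspose_mul, hQ]
      rw [mul_add, add_mul, hP, mul_assoc, mul_assoc, mul_assoc, e2]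
    have e3 : (P + Qᴴ) - T * (P + Qᴴ) * Tᴴ = P * (1 - T * Tᴴ) + (1 - T * Tᴴ) * Qᴴ := by
      rw [e1]; noncomm_ring
    rw [e3, h.defect, mul_vecMulVec, vecMulVec_mul, hc, ← star_mulVec, hd]
  have h2 : T * (M - (P + Qᴴ)) * Tᴴ = M - (P + Qᴴ) := by
    have e4 : T * (M - (P + Qᴴ)) * Tᴴ = T * M * Tᴴ - T * (P + Qᴴ) * Tᴴ := by noncomm_ring
    have e5 : T * M * Tᴴ = M - (vecMulVec u (star k) + vecMulVec k (star v)) := by rw [← hM]; abel
    have e6 : T * (P + Qᴴ) * Tᴴ = (P + Qᴴ) - (vecMulVec u (star k) + vecMulVec k (star v)) := by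
      rw [← h1]; abel
    rw [e4, e5, e6]; abel
  have := h.stein h2
  exact sub_eq_zero.1 this

/-- No two orthogonal eigenvectors. -/
def NoOrth (M : Matrix (Fin n) (Fin n) ℂ) : Prop :=
  ¬ ∃ x y : Fin n → ℂ, ∃ a b : ℂ, x ≠ 0 ∧ y ≠ 0 ∧
          M *ᵥ x = a • x ∧ M *ᵥ y = b • y ∧ star x ⬝ᵥ y = 0

/-- A unitary commuting with a matrix without orthogonal eigenvectors is scalar. -/
theorem scalar_of_comm {M V : Matrix (Fin n) (Fin n) ℂ} (hn : 0 < n) (hM : NoOrth M)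
    (hV : Vᴴ * V = 1) (hVM : V * M = M * V) : ∃ c : ℂ, c ≠ 0 ∧ V = c • 1 := by
  have : Nontrivial (Fin n → ℂ) := by
    have : Nonempty (Fin n) := ⟨⟨0, hn⟩⟩
    infer_instance
  have hV' : V * Vᴴ = 1 := mul_eq_one_comm.1 hV
  obtain ⟨c, hc⟩ := Module.End.exists_eigenvalue V.mulVecLin
  obtain ⟨x0, hx0⟩ := hc.exists_hasEigenvector
  have hx0' : V *ᵥ x0 = c • x0 := hx0.apply_eq_smul
  have hcc : star c * c = 1 := by
    have h5 : star (V *ᵥ x0) ⬝ᵥ (V *ᵥ x0) = star x0 ⬝ᵥ x0 := by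
      rw [dot_mulVec, mulVec_mulVec, hV, one_mulVec]
    rw [hx0', star_smul, smul_dotProduct, dotProduct_smul, smul_eq_mul, smul_eq_mul, ← mul_assoc] at h5
    have h6 : star x0 ⬝ᵥ x0 ≠ 0 := fun h => hx0.2 (norm_sq_nonneg' x0 h)
    exact mul_right_cancel₀ h6 (by rw [h5, one_mul])
  have hc0 : c ≠ 0 := by rintro rfl; simp at hcc
  refine ⟨c, hc0, ?_⟩
  by_contra hne
  -- eigenvector in the kernel
  obtain ⟨x, hx, hxne, a, hxa⟩ := exists_eigenvector M.mulVecLin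
    (LinearMap.ker (V - c • (1 : Matrix (Fin n) (Fin n) ℂ)).mulVecLin) (by
      intro x hx
      rw [LinearMap.mem_ker, mulVecLin_apply] at *
      rw [mulVecLin_apply, mulVec_mulVec]
      have : (V - c • (1 : Matrix (Fin n) (Fin n) ℂ)) * M = M * (V - c • 1) := by
        rw [sub_mul, mul_sub, hVM]; simp
      rw [this, ← mulVec_mulVec, hx, mulVec_zero]) ⟨x0, by
        rw [LinearMap.mem_ker, mulVecLin_apply, sub_mulVec, hx0', smul_mulVec, one_mulVec, sub_self], hx0.2⟩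
  obtain ⟨y, hy, hyne, b, hyb⟩ := exists_eigenvector M.mulVecLin
    (LinearMap.range (V - c • (1 : Matrix (Fin n) (Fin n) ℂ)).mulVecLin) (by
      rintro _ ⟨z, rfl⟩
      refine ⟨M *ᵥ z, ?_⟩
      rw [mulVecLin_apply, mulVecLin_apply, mulVecLin_apply, mulVec_mulVec, mulVec_mulVec]
      congr 1
      rw [sub_mul, mul_sub, hVM]; simp) (by
        by_contra hcon
        push Not at hcon
        apply hne
        rw [← sub_eq_zero]
        apply Matrix.mulVec_injective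
        ext1 z
        rw [zero_mulVec]
        exact hcon _ ⟨z, rfl⟩)
  rw [LinearMap.mem_ker, mulVecLin_apply, sub_mulVec, smul_mulVec, one_mulVec, sub_eq_zero] at hx
  rw [mulVecLin_apply] at hxa hyb
  refine hM ⟨x, y, a, b, hxne, hyne, hxa, hyb, ?_⟩
  obtain ⟨z, rfl⟩ := hy
  have h1 : Vᴴ *ᵥ x = star c • x := by
    have h2 : x = c • (Vᴴ *ᵥ x) := by
      rw [← mulVec_smul, ← hx, mulVec_mulVec, hV, one_mulVec]
    calc Vᴴ *ᵥ x = (star c * c) • (Vᴴ *ᵥ x) := by rw [hcc, one_smul]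
      _ = star c • (c • (Vᴴ *ᵥ x)) := by rw [smul_smul]
      _ = star c • x := by rw [← h2]
  have h3 : star x ⬝ᵥ (V *ᵥ z) = c * (star x ⬝ᵥ z) := by
    have := dot_mulVec Vᴴ x z
    rw [conjTranspose_conjTranspose, h1, star_smul, star_star, smul_dotProduct, smul_eq_mul] at this
    exact this.symm
  rw [mulVecLin_apply, sub_mulVec, dotProduct_sub, h3, smul_mulVec, one_mulVec, dotProduct_smul,
    smul_eq_mul, sub_self]

theorem transpose_comb (T : Matrix (Fin n) (Fin n) ℂ) (c : Fin n → ℂ) :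
    (∑ j : Fin n, c j • T ^ (j : ℕ))ᵀ = ∑ j : Fin n, c j • Tᵀ ^ (j : ℕ) := by
  rw [transpose_sum]
  refine Finset.sum_congr rfl fun j _ => ?_
  rw [transpose_smul, transpose_pow]

theorem intertwine_comb {T T' V : Matrix (Fin n) (Fin n) ℂ} (h : V * T = T' * V) (c : Fin n → ℂ) :
    V * (∑ j : Fin n, c j • T ^ (j : ℕ)) = (∑ j : Fin n, c j • T' ^ (j : ℕ)) * V := by
  have hp : ∀ j : ℕ, V * T ^ j = T' ^ j * V := by
    intro j
    induction j with
    | zero => simp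
    | succ j ih => rw [pow_succ, ← mul_assoc, ih, mul_assoc, h, ← mul_assoc, ← pow_succ]
  rw [Finset.mul_sum, Finset.sum_mul]
  refine Finset.sum_congr rfl fun j _ => ?_
  rw [mul_smul_comm, smul_mul_assoc, hp]

/-- The matrix `T` is symmetric. -/
theorem Model.symm {T : Matrix (Fin n) (Fin n) ℂ} {k : Fin n → ℂ} (h : Model T k)
    {M : Matrix (Fin n) (Fin n) ℂ} {u v : Fin n → ℂ} (hn : 0 < n) (hno : NoOrth M) (hsym : Mᵀ = M)
    (hM : M - T * M * Tᴴ = vecMulVec u (star k) + vecMulVec k (star v)) : Tᵀ = T := by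
  obtain ⟨c, d, hcd⟩ := h.repr hM
  obtain ⟨V, hV, hVT⟩ := h.exists_unitary
  have hV' : V * Vᴴ = 1 := mul_eq_one_comm.1 hV
  have hP := intertwine_comb hVT c
  have hQ := intertwine_comb hVT d
  rw [← transpose_comb] at hP hQ
  set P := ∑ j : Fin n, c j • T ^ (j : ℕ)
  set Q := ∑ j : Fin n, d j • T ^ (j : ℕ)
  have hQ2 : V * Qᴴ = (Qᴴ)ᵀ * V := by
    have e1 : Qᴴ * Vᴴ = Vᴴ * (Qᵀ)ᴴ := by
      rw [← conjTranspose_mul, ← conjTranspose_mul, hQ]
    have e2 : (Qᵀ)ᴴ = (Qᴴ)ᵀ := rfl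
    calc V * Qᴴ = V * (Qᴴ * Vᴴ) * V := by rw [mul_assoc, mul_assoc, hV, mul_one]
      _ = V * (Vᴴ * (Qᴴ)ᵀ) * V := by rw [e1, e2]
      _ = (Qᴴ)ᵀ * V := by rw [← mul_assoc, hV', one_mul]
  have hVM : V * M = M * V := by
    have e3 : V * M = Mᵀ * V := by
      rw [hcd, mul_add, hP, hQ2, transpose_add, add_mul]
    rw [e3, hsym]
  obtain ⟨c0, hc0, hVc⟩ := scalar_of_comm hn hno hV hVM
  rw [hVc, smul_mul_assoc, one_mul, mul_smul_comm, mul_one] at hVT
  have := congrArg (fun X => c0⁻¹ • X) hVT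
  simp only [smul_smul, inv_mul_cancel₀ hc0, one_smul] at this
  exact this.symm

theorem comm_pow {T : Matrix (Fin n) (Fin n) ℂ} {k : Fin n → ℂ}
    (hd : 1 - T * Tᴴ = vecMulVec k (star k)) (hs : Tᵀ = T) (j : ℕ) :
    ∃ z : Fin n → ℂ, T * Tᴴ ^ j - Tᴴ ^ j * T = vecMulVec z k - vecMulVec k z := by
  cases j with
  | zero => exact ⟨0, by simp⟩
  | succ j =>
    have hs' : (Tᴴ)ᵀ = Tᴴ := by
      have : (Tᴴ)ᵀ = (Tᵀ)ᴴ := rfl
      rw [this, hs]
    have hd' : 1 - Tᴴ * T = vecMulVec (star k) k := by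
      have := congrArg Matrix.transpose hd
      rw [transpose_sub, transpose_one, transpose_mul, hs, hs'] at this
      rw [this]
      ext a b
      simp [vecMulVec_apply, mul_comm]
    refine ⟨(Tᴴ ^ j) *ᵥ (star k), ?_⟩
    have e1 : T * Tᴴ ^ (j + 1) = Tᴴ ^ j - vecMulVec k (star k) * Tᴴ ^ j := by
      rw [← hd, pow_succ', ← mul_assoc]; noncomm_ring
    have e2 : Tᴴ ^ (j + 1) * T = Tᴴ ^ j - Tᴴ ^ j * vecMulVec (star k) k := by
      rw [← hd', pow_succ, mul_assoc]; noncomm_ring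
    have e3 : star k ᵥ* Tᴴ ^ j = (Tᴴ ^ j) *ᵥ (star k) := by
      have : (Tᴴ ^ j)ᵀ = Tᴴ ^ j := by rw [transpose_pow, hs']
      rw [← vecMul_transpose, this]
    rw [e1, e2, vecMulVec_mul, mul_vecMulVec, e3]
    abel

theorem comm_comb' {T : Matrix (Fin n) (Fin n) ℂ} {k : Fin n → ℂ}
    (hd : 1 - T * Tᴴ = vecMulVec k (star k)) (hs : Tᵀ = T) (c : Fin n → ℂ) :
    ∃ z : Fin n → ℂ, T * (∑ j : Fin n, c j • T ^ (j : ℕ))ᴴ - (∑ j : Fin n, c j • T ^ (j : ℕ))ᴴ * T =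
      vecMulVec z k - vecMulVec k z := by
  choose z hz using comm_pow hd hs
  refine ⟨∑ j : Fin n, star (c j) • z j, ?_⟩
  rw [conjTranspose_sum, Finset.mul_sum, Finset.sum_mul, ← Finset.sum_sub_distrib]
  have e1 : ∀ j : Fin n, T * (c j • T ^ (j : ℕ))ᴴ - (c j • T ^ (j : ℕ))ᴴ * T =
      star (c j) • (vecMulVec (z j) k - vecMulVec k (z j)) := by
    intro j
    rw [conjTranspose_smul, conjTranspose_pow, mul_smul_comm, smul_mul_assoc, ← smul_sub, hz]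
  rw [Finset.sum_congr rfl fun j _ => e1 j]
  ext a b
  simp only [Matrix.sum_apply, Matrix.smul_apply, Matrix.sub_apply, vecMulVec_apply,
    Finset.sum_apply, Pi.smul_apply, smul_eq_mul, Finset.sum_mul, Finset.mul_sum,
    ← Finset.sum_sub_distrib]
  refine Finset.sum_congr rfl fun j _ => ?_
  ring

/-- The commutators. -/
theorem Model.commutators {T : Matrix (Fin n) (Fin n) ℂ} {k : Fin n → ℂ} (h : Model T k)
    {M : Matrix (Fin n) (Fin n) ℂ} {u v : Fin n → ℂ} (hs : Tᵀ = T)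
    (hM : M - T * M * Tᴴ = vecMulVec u (star k) + vecMulVec k (star v)) :
    (∃ z : Fin n → ℂ, T * M - M * T = vecMulVec z k - vecMulVec k z) ∧
      ∃ z : Fin n → ℂ, T * Mᴴ - Mᴴ * T = vecMulVec z k - vecMulVec k z := by
  obtain ⟨c, d, hcd⟩ := h.repr hM
  obtain ⟨z1, hz1⟩ := comm_comb' h.defect hs d
  obtain ⟨z2, hz2⟩ := comm_comb' h.defect hs c
  have hP := comm_comb T c
  have hQ := comm_comb T d
  set P := ∑ j : Fin n, c j • T ^ (j : ℕ)
  set Q := ∑ j : Fin n, d j • T ^ (j : ℕ)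
  constructor
  · refine ⟨z1, ?_⟩
    rw [hcd, mul_add, add_mul, hP, ← hz1]; abel
  · refine ⟨z2, ?_⟩
    rw [hcd, conjTranspose_add, conjTranspose_conjTranspose, mul_add, add_mul, hQ, ← hz2]; abel

end Pool.Agent.V1194.TTOAlg
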