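import Pool.Agent.V1194.TTOAlg

/-!
# A low-dimensional smooth parametrization of the complex symmetric truncated Toeplitz matrices with a
given diagonal real part
-/

set_option autoImplicit false

namespace Pool.Agent.V1194.TTOParam

open Matrix Finset Pool.Agent.V1194.TTOAlg

variable {n : ℕ}

/-- Parameters. -/
abbrev Par (n : ℕ) := (Fin 5 → Fin n → ℂ) × ℂ

section Maps

variable (a : Fin n → ℝ)

/-- The matrix `T`. -/
noncomputable def Tm (p : Par n) : Matrix (Fin n) (Fin n) ℂ := Matrix.of fun i j =>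
  if i = j then p.1 2 i else (p.1 1 i * p.1 0 j - p.1 0 i * p.1 1 j) * ((a j - a i : ℝ) : ℂ)⁻¹

/-- The vectors `T ^ j k`. -/
noncomputable def kap (p : Par n) : ℕ → Fin n → ℂ
  | 0 => p.1 0
  | j + 1 => fun i => ∑ l, Tm a p i l * kap p j l

/-- The vectors `B T ^ j k`. -/
noncomputable def yv (p : Par n) : ℕ → Fin n → ℂ
  | 0 => p.1 4
  | j + 1 => fun i => (∑ l, Tm a p i l * yv p j l) - (∑ l, p.1 0 l * kap a p j l) * p.1 3 i +
      (∑ l, p.1 3 l * kap a p j l) * p.1 0 i

/-- The Krylov matrix. -/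
noncomputable def Km (p : Par n) : Matrix (Fin n) (Fin n) ℂ := Matrix.of fun i j => kap a p j i

/-- The parametrization. -/
noncomputable def out (p : Par n) : Sym2 (Fin n) → ℝ := fun s =>
  (p.2 * ∑ l : Fin n, yv a p l s.out.1 * (Km a p).adjugate l s.out.2).re

end Maps

section Smooth

variable (a : Fin n → ℝ)

theorem contDiff_coord (b : Fin 5) (i : Fin n) : ContDiff ℝ 1 fun p : Par n => p.1 b i := by
  fun_prop

theorem contDiff_Tm (i j : Fin n) : ContDiff ℝ 1 fun p : Par n => Tm a p i j := by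
  unfold Tm
  simp only [Matrix.of_apply]
  split_ifs
  · exact contDiff_coord _ _
  · exact (((contDiff_coord _ _).mul (contDiff_coord _ _)).sub
      ((contDiff_coord _ _).mul (contDiff_coord _ _))).mul contDiff_const

theorem contDiff_kap (j : ℕ) (i : Fin n) : ContDiff ℝ 1 fun p : Par n => kap a p j i := by
  induction j generalizing i with
  | zero => exact contDiff_coord _ _
  | succ j ih =>
    simp only [kap]
    exact ContDiff.sum fun l _ => (contDiff_Tm a i l).mul (ih l)

theorem contDiff_yv (j : ℕ) (i : Fin n) : ContDiff ℝ 1 fun p : Par n => yv a p j i := by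
  induction j generalizing i with
  | zero => exact contDiff_coord _ _
  | succ j ih =>
    simp only [yv]
    refine ContDiff.add (ContDiff.sub (ContDiff.sum fun l _ => (contDiff_Tm a i l).mul (ih l))
      (ContDiff.mul (ContDiff.sum fun l _ => (contDiff_coord _ _).mul (contDiff_kap a _ _))
        (contDiff_coord _ _)))
      (ContDiff.mul (ContDiff.sum fun l _ => (contDiff_coord _ _).mul (contDiff_kap a _ _))
        (contDiff_coord _ _))

theorem contDiff_det {E : Type*} [NormedAddCommGroup E] [NormedSpace ℝ E]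
    {A : E → Matrix (Fin n) (Fin n) ℂ} (h : ∀ i j, ContDiff ℝ 1 fun p => A p i j) :
    ContDiff ℝ 1 fun p => (A p).det := by
  simp only [Matrix.det_apply']
  exact ContDiff.sum fun σ _ => contDiff_const.mul (contDiff_prod fun i _ => h _ _)

theorem contDiff_adj {E : Type*} [NormedAddCommGroup E] [NormedSpace ℝ E]
    {A : E → Matrix (Fin n) (Fin n) ℂ} (h : ∀ i j, ContDiff ℝ 1 fun p => A p i j) (i j : Fin n) :
    ContDiff ℝ 1 fun p => (A p).adjugate i j := by
  simp only [Matrix.adjugate_apply]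
  refine contDiff_det fun r s => ?_
  simp only [Matrix.updateRow_apply]
  split_ifs
  · exact contDiff_const
  · exact h _ _

theorem contDiff_out : ContDiff ℝ 1 (out a : Par n → Sym2 (Fin n) → ℝ) := by
  rw [contDiff_pi]
  intro s
  unfold out
  have h1 : ContDiff ℝ 1 fun p : Par n =>
      p.2 * ∑ l : Fin n, yv a p l s.out.1 * (Km a p).adjugate l s.out.2 := by
    refine ContDiff.mul contDiff_snd (ContDiff.sum fun l _ => (contDiff_yv a _ _).mul ?_)
    refine contDiff_adj (fun i j => ?_) _ _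
    exact contDiff_kap a _ _
  exact Complex.reCLM.contDiff.comp h1

theorem dense_compl (a : Fin 20 → ℝ) : Dense (Set.range (out a : Par 20 → Sym2 (Fin 20) → ℝ))ᶜ := by
  refine (contDiff_out a).dense_compl_range_of_finrank_lt_finrank ?_
  rw [Module.finrank_prod, Module.finrank_pi, Module.finrank_pi_fintype]
  simp [Sym2.card, Complex.finrank_real_complex, Module.finrank_pi_fintype]
  decide

end Smooth

/-- The real symmetric matrix given by a function on unordered pairs. -/
def Bm (f : Sym2 (Fin n) → ℝ) : Matrix (Fin n) (Fin n) ℂ := Matrix.of fun i j => (f s(i, j) : ℂ)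

/-- The complex symmetric matrix `diag a + i B`. -/
noncomputable def Mm (a : Fin n → ℝ) (f : Sym2 (Fin n) → ℝ) : Matrix (Fin n) (Fin n) ℂ :=
  diagonal (fun i => (a i : ℂ)) + Complex.I • Bm f

theorem Mm_symm (a : Fin n → ℝ) (f : Sym2 (Fin n) → ℝ) : (Mm a f)ᵀ = Mm a f := by
  unfold Mm
  rw [transpose_add, diagonal_transpose, transpose_smul]
  congr 2
  ext i j
  simp [Bm, Sym2.eq_swap]

theorem Mm_conjTranspose (a : Fin n → ℝ) (f : Sym2 (Fin n) → ℝ) :
    (Mm a f)ᴴ = diagonal (fun i => (a i : ℂ)) - Complex.I • Bm f := by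
  have h1 : (Bm f)ᴴ = Bm f := by
    ext i j
    simp [Bm, Sym2.eq_swap]
  unfold Mm
  rw [conjTranspose_add, diagonal_conjTranspose, conjTranspose_smul, h1]
  have h2 : star (fun i => (a i : ℂ)) = fun i => (a i : ℂ) := by ext i; simp
  rw [h2]
  simp [sub_eq_add_neg]

theorem mem_range (a : Fin n → ℝ) (ha : Function.Injective a) (hn : 0 < n)
    {f : Sym2 (Fin n) → ℝ} (hno : NoOrth (Mm a f)) {T : Matrix (Fin n) (Fin n) ℂ}
    {k u v : Fin n → ℂ} (h : Model T k)
    (hM : Mm a f - T * Mm a f * Tᴴ = vecMulVec u (star k) + vecMulVec k (star v)) :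
    f ∈ Set.range (out a : Par n → Sym2 (Fin n) → ℝ) := by
  have hs := h.symm hn hno (Mm_symm a f) hM
  obtain ⟨⟨z1, hz1⟩, ⟨z2, hz2⟩⟩ := h.commutators hs hM
  rw [Mm_conjTranspose] at hz2
  unfold Mm at hz1
  set D : Matrix (Fin n) (Fin n) ℂ := diagonal (fun i => (a i : ℂ)) with hD
  set B := Bm f with hB
  -- commutator with the real part
  have hTD : ∀ i j, T i j * ((a j - a i : ℝ) : ℂ) =
      ((z1 i + z2 i) / 2) * k j - k i * ((z1 j + z2 j) / 2) := by
    intro i j
    have e1 := congrFun (congrFun hz1 i) j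
    have e2 := congrFun (congrFun hz2 i) j
    simp only [mul_add, mul_sub, add_mul, sub_mul, Matrix.sub_apply, Matrix.add_apply,
      vecMulVec_apply] at e1 e2
    have e3 : (T * D) i j = T i j * a j := by rw [hD, mul_diagonal]
    have e4 : (D * T) i j = a i * T i j := by rw [hD, diagonal_mul]
    rw [e3, e4] at e1 e2
    push_cast
    linear_combination (1 / 2 : ℂ) * e1 + (1 / 2 : ℂ) * e2
  have hTB : ∀ i j, (T * B) i j - (B * T) i j =
      ((z1 i - z2 i) / (2 * Complex.I)) * k j - k i * ((z1 j - z2 j) / (2 * Complex.I)) := by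
    intro i j
    have e1 := congrFun (congrFun hz1 i) j
    have e2 := congrFun (congrFun hz2 i) j
    simp only [mul_add, mul_sub, add_mul, sub_mul, Matrix.sub_apply, Matrix.add_apply,
      vecMulVec_apply, mul_smul_comm, smul_mul_assoc, Matrix.smul_apply, smul_eq_mul] at e1 e2
    have hI : Complex.I ≠ 0 := Complex.I_ne_zero
    field_simp
    linear_combination e1 - e2
  -- parameters
  let q : Fin 5 → Fin n → ℂ := ![k, fun i => (z1 i + z2 i) / 2, fun i => T i i,
    fun i => (z1 i - z2 i) / (2 * Complex.I), B *ᵥ k]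
  have hKdet : IsUnit (Kry T k).det := (Matrix.isUnit_iff_isUnit_det _).1 h.isUnit_kry
  let p : Par n := (q, ((Kry T k).det)⁻¹)
  have hT : Tm a p = T := by
    ext i j
    simp only [Tm, Matrix.of_apply]
    split_ifs with hij
    · subst hij; rfl
    · have h1 : ((a j - a i : ℝ) : ℂ) ≠ 0 := by
        rw [Complex.ofReal_ne_zero, sub_ne_zero]
        exact fun h => hij (ha h).symm
      have h2 := hTD i j
      show ((z1 i + z2 i) / 2 * k j - k i * ((z1 j + z2 j) / 2)) * ((a j - a i : ℝ) : ℂ)⁻¹ = T i j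
      rw [← h2, mul_assoc, mul_inv_cancel₀ h1, mul_one]
  have hkap : ∀ j, kap a p j = (T ^ j) *ᵥ k := by
    intro j
    induction j with
    | zero => simp [kap, p, q]
    | succ j ih =>
      ext i
      simp only [kap]
      rw [hT, ih, pow_succ', ← mulVec_mulVec]
      rfl
  have hy : ∀ j, yv a p j = B *ᵥ ((T ^ j) *ᵥ k) := by
    intro j
    induction j with
    | zero => simp [yv, p, q]
    | succ j ih =>
      ext i
      simp only [yv]
      rw [hT, ih, hkap, pow_succ', ← mulVec_mulVec]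
      set w := (T ^ j) *ᵥ k
      have e1 : (T *ᵥ (B *ᵥ w)) i - (B *ᵥ (T *ᵥ w)) i =
          ∑ l, ((T * B) i l - (B * T) i l) * w l := by
        have f1 : T *ᵥ (B *ᵥ w) = (T * B) *ᵥ w := mulVec_mulVec _ _ _
        have f2 : B *ᵥ (T *ᵥ w) = (B * T) *ᵥ w := mulVec_mulVec _ _ _
        rw [f1, f2]
        clear_value w
        simp only [mulVec, dotProduct, ← Finset.sum_sub_distrib, sub_mul]
      have e2 : (∑ l, T i l * (B *ᵥ w) l) = (T *ᵥ (B *ᵥ w)) i := rfl
      have e3 : (B *ᵥ (T *ᵥ w)) i = (T *ᵥ (B *ᵥ w)) i -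
          ∑ l, ((T * B) i l - (B * T) i l) * w l := by rw [← e1]; ring
      rw [e2, e3]
      simp only [hTB]
      show (T *ᵥ (B *ᵥ w)) i - (∑ l, k l * w l) * ((z1 i - z2 i) / (2 * Complex.I)) +
        (∑ l, (z1 l - z2 l) / (2 * Complex.I) * w l) * k i = _
      rw [Finset.sum_mul, Finset.sum_mul]
      have e4 : ∑ l, (((z1 i - z2 i) / (2 * Complex.I)) * k l -
          k i * ((z1 l - z2 l) / (2 * Complex.I))) * w l =
          ∑ l, (k l * w l * ((z1 i - z2 i) / (2 * Complex.I))) -
          ∑ l, ((z1 l - z2 l) / (2 * Complex.I) * w l * k i) := by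
        rw [← Finset.sum_sub_distrib]
        refine Finset.sum_congr rfl fun l _ => ?_
        ring
      rw [e4]
      ring
  have hKm : Km a p = Kry T k := by
    ext i j
    simp only [Km, Kry, Matrix.of_apply, hkap]
  refine ⟨p, ?_⟩
  ext s
  have hs2 : s = s(s.out.1, s.out.2) := by
    conv_lhs => rw [← Quot.out_eq s]
  have hBs : (B s.out.1 s.out.2) = (f s : ℂ) := by
    rw [hB, Bm, Matrix.of_apply, ← hs2]
  have hBK : B = B * Kry T k * (((Kry T k).det)⁻¹ • (Kry T k).adjugate) := by
    rw [mul_assoc, mul_smul_comm, Matrix.mul_adjugate, smul_smul,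
      inv_mul_cancel₀ (isUnit_iff_ne_zero.1 hKdet), one_smul, mul_one]
  unfold out
  have e5 : p.2 * ∑ l : Fin n, yv a p l s.out.1 * (Km a p).adjugate l s.out.2 =
      B s.out.1 s.out.2 := by
    conv_rhs => rw [hBK]
    rw [mul_smul_comm, Matrix.smul_apply, smul_eq_mul, Matrix.mul_apply, hKm]
    congr 1
    refine Finset.sum_congr rfl fun l _ => ?_
    rw [hy]
    congr 1
  rw [e5, hBs, Complex.ofReal_re]

end Pool.Agent.V1194.TTOParam
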